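import Mathlib
import Pool.Agent.Helper99.MVL.Nv

/-!
# Nonvanishing of the resultants of twists of an irreducible polynomial, general coefficients
-/

set_option autoImplicit false

open Finset Polynomial

namespace Pool.Agent.Helper99.MVQ

open Pool.Agent.Helper99.TD Pool.Agent.Helper99.MVL

variable {k m : ℕ}

/-- a twist divisible by the polynomial is a multiple -/
lemma const_of_dvd' {K : Type*} [Field K] {α : Fin k → Fin (m + 1) → ℕ}
    (hα : Function.Injective α) (q : Fin k → K) (hq : ∀ j, q j ≠ 0) (s : Fin k → K)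
    (hs : ∀ j, s j ≠ 0)
    (h : PV (fun _ => 1) α q ∣ PV (fun _ => 1) α (fun j => s j * q j)) (hk : 0 < k) :
    ∃ g : K, ∀ j, s j = g := by
  obtain ⟨G, hG⟩ := h
  have h1 : ∀ j, (((fun _ => 1 : Fin k → ℤ) j : ℤ) : K) * q j ≠ 0 := fun j => by simpa using hq j
  have h2 : ∀ j, (((fun _ => 1 : Fin k → ℤ) j : ℤ) : K) * (fun j => s j * q j) j ≠ 0 :=
    fun j => by simpa using ⟨hs j, hq j⟩
  have hs1 := PV_support (fun _ => 1) hα _ h1
  have hs2 := PV_support (fun _ => 1) hα _ h2
  have hP1 : PV (fun _ => 1) α q ≠ 0 := by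
    intro h0
    have := PV_coeff (fun _ => 1) hα q ⟨0, hk⟩
    rw [h0, MvPolynomial.coeff_zero] at this
    exact h1 ⟨0, hk⟩ this.symm
  have hP2 : PV (fun _ => 1) α (fun j => s j * q j) ≠ 0 := by
    intro h0
    have := PV_coeff (fun _ => 1) hα (fun j => s j * q j) ⟨0, hk⟩
    rw [h0, MvPolynomial.coeff_zero] at this
    exact h2 ⟨0, hk⟩ this.symm
  have hG0 : G ≠ 0 := by
    rintro rfl
    rw [mul_zero] at hG
    exact hP2 hG
  have htd : (PV (fun _ => 1) α (fun j => s j * q j)).totalDegree =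
      (PV (fun _ => 1) α q).totalDegree := by
    unfold MvPolynomial.totalDegree
    rw [hs1, hs2]
  have h3 : G.totalDegree = 0 := by
    have h4 := congrArg MvPolynomial.totalDegree hG
    rw [MvPolynomial.totalDegree_mul_of_isDomain hP1 hG0, htd] at h4
    omega
  rw [MvPolynomial.totalDegree_eq_zero_iff_eq_C] at h3
  refine ⟨MvPolynomial.coeff 0 G, fun j => ?_⟩
  have h5 := congrArg (MvPolynomial.coeff (fs (α j))) hG
  rw [h3, PV_coeff _ hα, mul_comm (PV _ α _), MvPolynomial.coeff_C_mul, PV_coeff _ hα] at h5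
  have h6 : s j * q j = MvPolynomial.coeff 0 G * q j := by
    simpa using h5
  exact mul_right_cancel₀ (hq j) h6

/-- irreducible polynomials are coprime to their nontrivial twists -/
lemma cop_of_irred' {K : Type*} [Field K] {α : Fin k → Fin (m + 1) → ℕ}
    (hα : Function.Injective α) (q : Fin k → K) (hq : ∀ j, q j ≠ 0) (i0 : Fin (m + 1)) {D : ℕ}
    (hDpos : 0 < D) (hD : ∀ j, α j i0 ≤ D) (jt : Fin k) (hjt : α jt i0 = D)
    (hirr : Irreducible (PV (fun _ => 1) α q)) (s : Fin k → K) (hs : ∀ j, s j ≠ 0)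
    (hns : ∃ j j', s j ≠ s j') :
    Cop (TP (fun _ => 1) (fun j => α j i0) (fun j => MvPolynomial.C (q j) * mo K α i0 j))
      (TP (fun _ => 1) (fun j => α j i0) (fun j => MvPolynomial.C (s j * q j) * mo K α i0 j)) := by
  set F := TP (fun _ => 1) (fun j => α j i0) (fun j => MvPolynomial.C (q j) * mo K α i0 j) with hF
  set F' := TP (fun _ => 1) (fun j => α j i0)
    (fun j => MvPolynomial.C (s j * q j) * mo K α i0 j) with hF'
  have hFT : F = Th K i0 (PV (fun _ => 1) α q) := (Th_PV _ α i0 _).symm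
  have hFT' : F' = Th K i0 (PV (fun _ => 1) α (fun j => s j * q j)) := (Th_PV _ α i0 _).symm
  have hirrF : Irreducible F := by
    rw [hFT]
    exact (MulEquiv.irreducible_iff (Th K i0)).mpr hirr
  have hFd : F.natDegree = D := TP_natDegree _ hα i0 q
    (fun j => by simpa using hq j) hD jt hjt
  have hFd' : F'.natDegree = D := TP_natDegree _ hα i0 (fun j => s j * q j)
    (fun j => by simpa using ⟨hs j, hq j⟩) hD jt hjt
  have hprim : F.IsPrimitive := hirrF.isPrimitive (by rw [hFd]; omega)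
  set L := FractionRing (MvPolynomial (Fin m) K)
  have hirrL : Irreducible (F.map (algebraMap (MvPolynomial (Fin m) K) L)) :=
    (hprim.irreducible_iff_irreducible_map_fraction_map).mp hirrF
  have hinj : Function.Injective (algebraMap (MvPolynomial (Fin m) K) L) :=
    IsFractionRing.injective _ L
  have hres : resultant F F' D D ≠ 0 := by
    rcases hirrL.isCoprime_or_dvd (F'.map (algebraMap (MvPolynomial (Fin m) K) L)) with h | h
    · have h1 := resultant_ne_zero _ _ h
      intro h0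
      apply h1
      rw [natDegree_map_eq_of_injective hinj, natDegree_map_eq_of_injective hinj, hFd, hFd',
        resultant_map_map, h0, map_zero]
    · exfalso
      have h1 := hprim.dvd_of_fraction_map_dvd_fraction_map h
      have h2 : PV (fun _ => 1) α q ∣ PV (fun _ => 1) α (fun j => s j * q j) := by
        rw [hFT, hFT'] at h1
        exact (map_dvd_iff (Th K i0)).mp h1
      obtain ⟨g, hg⟩ := const_of_dvd' hα q hq s hs h2 (Fin.pos jt)
      obtain ⟨j, j', hjj'⟩ := hns
      apply hjj'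
      rw [hg, hg]
  obtain ⟨U, V, _, _, hUV⟩ := exists_mul_add_mul_eq_C_resultant F F' hFd.le hFd'.le
    (Or.inl hDpos.ne')
  exact ⟨U, V, _, hres, by rw [← hUV]; ring⟩

/-- irreducible polynomials are coprime to their derivatives -/
lemma cop_deriv_of_irred' {K : Type*} [Field K] [CharZero K]
    {α : Fin k → Fin (m + 1) → ℕ}
    (hα : Function.Injective α) (q : Fin k → K) (hq : ∀ j, q j ≠ 0) (i0 : Fin (m + 1)) {D : ℕ}
    (hDpos : 0 < D) (hD : ∀ j, α j i0 ≤ D) (jt : Fin k) (hjt : α jt i0 = D)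
    (hirr : Irreducible (PV (fun _ => 1) α q)) :
    Cop (TP (fun _ => 1) (fun j => α j i0) (fun j => MvPolynomial.C (q j) * mo K α i0 j))
      (derivative (TP (fun _ => 1) (fun j => α j i0)
        (fun j => MvPolynomial.C (q j) * mo K α i0 j))) := by
  set F := TP (fun _ => 1) (fun j => α j i0) (fun j => MvPolynomial.C (q j) * mo K α i0 j) with hF
  have hFT : F = Th K i0 (PV (fun _ => 1) α q) := (Th_PV _ α i0 _).symm
  have hirrF : Irreducible F := by
    rw [hFT]
    exact (MulEquiv.irreducible_iff (Th K i0)).mpr hirr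
  have hFd : F.natDegree = D := TP_natDegree _ hα i0 q
    (fun j => by simpa using hq j) hD jt hjt
  have hprim : F.IsPrimitive := hirrF.isPrimitive (by rw [hFd]; omega)
  set L := FractionRing (MvPolynomial (Fin m) K)
  have hirrL : Irreducible (F.map (algebraMap (MvPolynomial (Fin m) K) L)) :=
    (hprim.irreducible_iff_irreducible_map_fraction_map).mp hirrF
  have hinj : Function.Injective (algebraMap (MvPolynomial (Fin m) K) L) :=
    IsFractionRing.injective _ L
  have : CharZero L := charZero_of_injective_algebraMap hinj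
  have hsep : IsCoprime (F.map (algebraMap (MvPolynomial (Fin m) K) L))
      (derivative (F.map (algebraMap (MvPolynomial (Fin m) K) L))) := hirrL.separable
  have hFd' : (derivative F).natDegree = D - 1 := by
    have h1 := degree_derivative_eq F (by rw [hFd]; exact hDpos)
    rw [natDegree_eq_of_degree_eq_some h1, hFd]
  have hres : resultant F (derivative F) D (D - 1) ≠ 0 := by
    have h1 := resultant_ne_zero _ _ hsep
    intro h0
    apply h1
    rw [derivative_map, natDegree_map_eq_of_injective hinj, natDegree_map_eq_of_injective hinj,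
      hFd, hFd', resultant_map_map, h0, map_zero]
  obtain ⟨U, V, _, _, hUV⟩ := exists_mul_add_mul_eq_C_resultant F (derivative F) hFd.le hFd'.le
    (Or.inl hDpos.ne')
  exact ⟨U, V, _, hres, by rw [← hUV]; ring⟩

/-- the twists are coprime -/
theorem twists_ne' {p : ℕ} (hp : p.Prime) {K : Type*} [Field K] [CharZero K] (ψ : K →+* ℂ) {ζ : K}
    (hζ : IsPrimitiveRoot ζ p) {α : Fin k → Fin (m + 1) → ℕ}
    (hα : Function.Injective α) (q : Fin k → K) (hq : ∀ j, q j ≠ 0) (i0 : Fin (m + 1)) {D : ℕ}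
    (hDpos : 0 < D) (hD : ∀ j, α j i0 ≤ D) (jt : Fin k) (hjt : α jt i0 = D)
    (hirr : Irreducible (PV (fun _ => 1) α q)) {w w' : Fin k → ℕ} (hw : Rep α w)
    (hww : ∃ j j', ¬ ((w' j : ℤ) - w j ≡ (w' j' : ℤ) - w j' [ZMOD p])) :
    RS (fun _ => 1) (fun j => α j i0) D
      (yt (MvPolynomial.C ζ) w (fun j => MvPolynomial.C (q j) * mo K α i0 j))
      (yt (MvPolynomial.C ζ) w' (fun j => MvPolynomial.C (q j) * mo K α i0 j)) ≠ 0 ∧
    RD (fun _ => 1) (fun j => α j i0) D
      (yt (MvPolynomial.C ζ) w (fun j => MvPolynomial.C (q j) * mo K α i0 j)) ≠ 0 := by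
  have : NeZero p := ⟨hp.ne_zero⟩
  set μ : ℂ := ψ ζ with hμdef
  have hμp : IsPrimitiveRoot μ p := hζ.map_of_injective ψ.injective
  have hμn : ‖μ‖ = 1 := hμp.norm'_eq_one hp.ne_zero
  have hμ0 : μ ≠ 0 := by
    rw [← norm_pos_iff, hμn]; exact one_pos
  obtain ⟨θ, κ, hθ, hκ, hθμ⟩ := twist_data hw hμn
  have hz0 : ζ ≠ 0 := by
    intro h
    rw [hμdef, h, map_zero] at hμ0
    exact hμ0 rfl
  have hqC : ∀ j, ψ (q j) ≠ 0 := fun j => by
    rw [Ne, map_eq_zero_iff ψ ψ.injective]; exact hq j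
  set s : Fin k → K := fun j => ζ ^ (w' j) * (ζ ^ (w j))⁻¹ with hs
  have hs0 : ∀ j, s j ≠ 0 := fun j =>
    mul_ne_zero (pow_ne_zero _ hz0) (inv_ne_zero (pow_ne_zero _ hz0))
  have hψs : ∀ j, ψ (s j * q j) * ∏ l, θ l ^ (α j l) = κ⁻¹ * (μ ^ (w' j) * ψ (q j)) := by
    intro j
    have h1 := hθμ j
    rw [hs]
    simp only [map_mul, map_pow, map_inv₀]
    rw [← hμdef, h1]
    have h2 : ∏ l, θ l ^ (α j l) ≠ 0 :=
      Finset.prod_ne_zero_iff.mpr fun l _ => pow_ne_zero _ (hθ l)
    field_simp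
  have hψ1 : ∀ j, ψ (q j) * ∏ l, θ l ^ (α j l) = κ⁻¹ * (μ ^ (w j) * ψ (q j)) := by
    intro j
    rw [hθμ j]
    field_simp
  set χ : MvPolynomial (Fin m) K →+* MvPolynomial (Fin m) ℂ := MvPolynomial.map ψ with hχ
  have hmoC : ∀ j, χ (mo K α i0 j) = mo ℂ α i0 j := by
    intro j
    unfold mo
    rw [map_prod]
    refine Finset.prod_congr rfl fun l _ => ?_
    rw [map_pow, hχ, MvPolynomial.map_X]
  have hyt : ∀ w : Fin k → ℕ, (fun j => χ (yt (MvPolynomial.C ζ) w
      (fun j => MvPolynomial.C (q j) * mo K α i0 j) j)) =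
      yt (MvPolynomial.C μ) w (fun j => MvPolynomial.C (ψ (q j)) * mo ℂ α i0 j) := by
    intro w
    funext j
    unfold yt
    rw [map_mul, map_pow, map_mul, hmoC, hχ, MvPolynomial.map_C, MvPolynomial.map_C]
  set T : (Fin k → ℕ) → (MvPolynomial (Fin m) ℂ)[X] := fun w =>
    TP (fun _ => 1) (fun j => α j i0) (yt (MvPolynomial.C μ) w
      (fun j => MvPolynomial.C (ψ (q j)) * mo ℂ α i0 j)) with hT
  have hTeq : ∀ w : Fin k → ℕ, TP (fun _ => 1) (fun j => α j i0)
      (fun j => MvPolynomial.C (κ⁻¹ * (μ ^ (w j) * ψ (q j))) * mo ℂ α i0 j) =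
      C (MvPolynomial.C κ⁻¹) * T w := by
    intro w
    rw [hT]
    dsimp only
    unfold TP yt
    rw [Finset.mul_sum]
    refine Finset.sum_congr rfl fun j _ => ?_
    simp only [map_mul, map_pow, map_intCast]
    ring
  have hTdeg : ∀ w : Fin k → ℕ, (T w).natDegree = D := by
    intro w
    have h1 := TP_natDegree (fun _ => 1) hα i0 (fun j => μ ^ (w j) * ψ (q j))
      (fun j => by
        have := mul_ne_zero (pow_ne_zero (w j) hμ0) (hqC j)
        simpa using this) hD jt hjt
    have h2 : T w = TP (fun _ => 1) (fun j => α j i0)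
        (fun j => MvPolynomial.C (μ ^ (w j) * ψ (q j)) * mo ℂ α i0 j) := by
      rw [hT]
      dsimp only
      congr 1
      funext j
      unfold yt
      rw [map_mul, map_pow]
      ring
    rw [h2]
    exact h1
  have hPF : Ps ψ θ i0 (TP (fun _ => 1) (fun j => α j i0)
      (fun j => MvPolynomial.C (q j) * mo K α i0 j)) = C (MvPolynomial.C κ⁻¹) * T w := by
    rw [← hTeq]
    have h1 := Ps_TP ψ θ i0 (fun _ => 1) α q
    simp only [hψ1] at h1
    exact h1
  have hPF' : Ps ψ θ i0 (TP (fun _ => 1) (fun j => α j i0)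
      (fun j => MvPolynomial.C (s j * q j) * mo K α i0 j)) = C (MvPolynomial.C κ⁻¹) * T w' := by
    rw [← hTeq]
    have h1 := Ps_TP ψ θ i0 (fun _ => 1) α (fun j => s j * q j)
    simp only [hψs] at h1
    exact h1
  constructor
  · have hns : ∃ j j', s j ≠ s j' := by
      obtain ⟨j, j', hjj'⟩ := hww
      refine ⟨j, j', fun h => hjj' ?_⟩
      have h1 : ζ ^ ((w' j : ℤ) - w j) = ζ ^ ((w' j' : ℤ) - w j') := by
        rw [zpow_sub₀ hz0, zpow_sub₀ hz0, zpow_natCast, zpow_natCast, zpow_natCast, zpow_natCast,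
          div_eq_mul_inv, div_eq_mul_inv]
        exact h
      have h2 : ζ ^ (((w' j : ℤ) - w j) - ((w' j' : ℤ) - w j')) = 1 := by
        rw [zpow_sub₀ hz0, h1, div_self]
        exact zpow_ne_zero _ hz0
      have h3 := (hζ.zpow_eq_one_iff_dvd _).mp h2
      exact (Int.modEq_iff_dvd.mpr h3).symm
    have h1 := cop_of_irred' hα q hq i0 hDpos hD jt hjt hirr s hs0 hns
    have h2 := cop_map h1 (Ps ψ θ i0) (sg ψ θ i0) (Ps_C ψ θ i0) (sg_ne ψ θ i0 hθ)
    have h3 := cop_scale hPF hPF' h2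
    intro h0
    have h4 := congrArg χ h0
    rw [RS_map, map_zero, hyt, hyt] at h4
    exact res_ne_of_cop (hTdeg w) (hTdeg w') h3 h4
  · have h1 := cop_deriv_of_irred' hα q hq i0 hDpos hD jt hjt hirr
    have h2 := cop_map h1 (Ps ψ θ i0) (sg ψ θ i0) (Ps_C ψ θ i0) (sg_ne ψ θ i0 hθ)
    have h4 : Ps ψ θ i0 (derivative (TP (fun _ => 1) (fun j => α j i0)
        (fun j => MvPolynomial.C (q j) * mo K α i0 j))) =
        C (MvPolynomial.C ((θ i0)⁻¹ * κ⁻¹)) * derivative (T w) := by
      have h5 := Ps_deriv ψ θ i0 (TP (fun _ => 1) (fun j => α j i0)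
        (fun j => MvPolynomial.C (q j) * mo K α i0 j))
      rw [hPF, derivative_C_mul] at h5
      have h6 : C (MvPolynomial.C ((θ i0)⁻¹)) * (C (MvPolynomial.C (θ i0)) *
          Ps ψ θ i0 (derivative (TP (fun _ => 1) (fun j => α j i0)
          (fun j => MvPolynomial.C (q j) * mo K α i0 j)))) =
          Ps ψ θ i0 (derivative (TP (fun _ => 1) (fun j => α j i0)
          (fun j => MvPolynomial.C (q j) * mo K α i0 j))) := by
        rw [← mul_assoc, ← C_mul, ← MvPolynomial.C_mul, inv_mul_cancel₀ (hθ i0),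
          MvPolynomial.C_1, C_1, one_mul]
      rw [← h6, ← h5, ← mul_assoc, ← C_mul, ← MvPolynomial.C_mul]
    have h3 := cop_scale hPF h4 h2
    have h8 : resultant (T w) (derivative (T w)) D (D - 1) ≠ 0 := by
      apply res_ne_of_cop (hTdeg w) _ h3
      have h7 := degree_derivative (p := T w) (by rw [hTdeg]; exact hDpos.ne')
      rw [natDegree_eq_of_degree_eq_some h7, hTdeg]
    intro h0
    have h9 := congrArg χ h0
    rw [RD_map, map_zero, hyt] at h9
    exact h8 h9

end Pool.Agent.Helper99.MVQ
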