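import Mathlib
import Pool.Agent.Helper99.MVL.Cy

/-!
# Functorial covariants: the cofactor of the resultant of two twists, and the discriminant
-/

set_option autoImplicit false

open Finset Polynomial

namespace Pool.Agent.Helper99.MVQ

open Pool.Agent.Helper99.TD Pool.Agent.Helper99.MVL

section gz

variable {A B : Type*} [CommRing A] [CommRing B]

/-- the cofactor of `ζ - 1` in `ζ ^ b - ζ ^ a` -/
noncomputable def gz (a b : ℕ) (ζ : A) : A :=
  eval₂ (Int.castRingHom A) ζ (X_pow_diff (A := ℤ) a b).choose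

lemma gz_spec (a b : ℕ) (ζ : A) : ζ ^ b = ζ ^ a + (ζ - 1) * gz a b ζ := by
  have h := congrArg (eval₂ (Int.castRingHom A) ζ) (X_pow_diff (A := ℤ) a b).choose_spec
  rw [eval₂_pow, eval₂_X, eval₂_add, eval₂_pow, eval₂_X, eval₂_mul, eval₂_sub, eval₂_X,
    eval₂_one] at h
  exact h

lemma gz_map (a b : ℕ) (ζ : A) (φ : A →+* B) : φ (gz a b ζ) = gz a b (φ ζ) := by
  unfold gz
  rw [hom_eval₂]
  congr 1
  exact RingHom.ext_int _ _

variable {k : ℕ}

/-- the cofactor of the resultant -/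
noncomputable def WX (e : Fin k → ℕ) (D : ℕ) (w w' : Fin k → ℕ) (ζ : A) (y : Fin k → A) : A :=
  RS (fun _ => 1) e D (yt ζ w y) (fun j => gz (w j) (w' j) ζ * y j)

lemma WX_eq (e : Fin k → ℕ) {D : ℕ} (hD : ∀ j, e j ≤ D) (w w' : Fin k → ℕ) (ζ : A)
    (y : Fin k → A) :
    RS (fun _ => 1) e D (yt ζ w y) (yt ζ w' y) = (ζ - 1) ^ D * WX e D w w' ζ y := by
  unfold WX
  rw [← RS_mul _ e hD]
  congr 1
  funext j
  unfold yt
  rw [gz_spec (w j) (w' j) ζ]
  ring

lemma WX_map (e : Fin k → ℕ) (D : ℕ) (w w' : Fin k → ℕ) (ζ : A) (y : Fin k → A)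
    (φ : A →+* B) : φ (WX e D w w' ζ y) = WX e D w w' (φ ζ) (fun j => φ (y j)) := by
  unfold WX
  rw [RS_map]
  congr 1
  · funext j
    unfold yt
    rw [map_mul, map_pow]
  · funext j
    rw [map_mul, gz_map]

lemma TP_smul (e : Fin k → ℕ) (t : A) (y : Fin k → A) :
    TP (fun _ => 1) e (fun j => t * y j) = C t * TP (fun _ => 1) e y := by
  unfold TP
  rw [Finset.mul_sum]
  refine Finset.sum_congr rfl fun j _ => ?_
  simp only [map_mul]
  ring

lemma WX_smul (e : Fin k → ℕ) (D : ℕ) (w w' : Fin k → ℕ) (ζ t : A) (y : Fin k → A) :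
    WX e D w w' ζ (fun j => t * y j) = t ^ (2 * D) * WX e D w w' ζ y := by
  unfold WX RS
  have h1 : yt ζ w (fun j => t * y j) = fun j => t * yt ζ w y j := by
    funext j
    unfold yt
    ring
  have h2 : (fun j => gz (w j) (w' j) ζ * (t * y j)) =
      fun j => t * (fun j => gz (w j) (w' j) ζ * y j) j := by
    funext j
    ring
  rw [h1, h2, TP_smul, TP_smul, resultant_C_mul_left, resultant_C_mul_right]
  ring

/-- the resultant with the derivative -/
noncomputable def DX (e : Fin k → ℕ) (D : ℕ) (w : Fin k → ℕ) (ζ : A) (y : Fin k → A) : A :=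
  RD (fun _ => 1) e D (yt ζ w y)

lemma DX_map (e : Fin k → ℕ) (D : ℕ) (w : Fin k → ℕ) (ζ : A) (y : Fin k → A)
    (φ : A →+* B) : φ (DX e D w ζ y) = DX e D w (φ ζ) (fun j => φ (y j)) := by
  unfold DX
  rw [RD_map]
  congr 1
  funext j
  unfold yt
  rw [map_mul, map_pow]

lemma DX_smul (e : Fin k → ℕ) {D : ℕ} (hD : 0 < D) (w : Fin k → ℕ) (ζ t : A) (y : Fin k → A) :
    DX e D w ζ (fun j => t * y j) = t ^ (2 * D - 1) * DX e D w ζ y := by
  unfold DX RD
  have h1 : yt ζ w (fun j => t * y j) = fun j => t * yt ζ w y j := by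
    funext j
    unfold yt
    ring
  rw [h1, TP_smul, derivative_C_mul, resultant_C_mul_left, resultant_C_mul_right,
    ← mul_assoc, ← pow_add]
  congr 2
  omega

end gz

/-- a functorial homogeneous covariant of weight `N` -/
structure Cov (k N : ℕ) where
  /-- the value -/
  f : ∀ (A : Type) [CommRing A], A → (Fin k → A) → A
  /-- functoriality -/
  map : ∀ (A B : Type) [CommRing A] [CommRing B] (φ : A →+* B) (ζ : A) (y : Fin k → A),
    φ (f A ζ y) = f B (φ ζ) (fun j => φ (y j))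
  /-- homogeneity -/
  smul : ∀ (A : Type) [CommRing A] (ζ t : A) (y : Fin k → A),
    f A ζ (fun j => t * y j) = t ^ N * f A ζ y

/-- the covariant of a pair of twists -/
noncomputable def covW {k : ℕ} (e : Fin k → ℕ) (D : ℕ) (w w' : Fin k → ℕ) : Cov k (2 * D) where
  f := fun A _ ζ y => WX e D w w' ζ y
  map := fun _ _ _ _ φ ζ y => WX_map e D w w' ζ y φ
  smul := fun _ _ ζ t y => WX_smul e D w w' ζ t y

/-- the covariant of a twist -/
noncomputable def covD {k : ℕ} (e : Fin k → ℕ) {D : ℕ} (hD : 0 < D) (w : Fin k → ℕ) :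
    Cov k (2 * D - 1) where
  f := fun A _ ζ y => DX e D w ζ y
  map := fun _ _ _ _ φ ζ y => DX_map e D w ζ y φ
  smul := fun _ _ ζ t y => DX_smul e hD w ζ t y

end Pool.Agent.Helper99.MVQ
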