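import Mathlib
import Pool.Agent.Helper99.MVQ.Wx
import Pool.Agent.Helper99.MVL.Nz

/-!
# Galois descent and integrality
-/

set_option autoImplicit false

open Finset

namespace Pool.Agent.Helper99.MVQ

open Pool.Agent.Helper99.TD Pool.Agent.Helper99.MVL

lemma lift_poly {τ R S : Type*} [CommRing R] [CommRing S] (φ : R →+* S) (F : MvPolynomial τ S)
    (h : ∀ a, ∃ r, φ r = F.coeff a) : ∃ F₀ : MvPolynomial τ R, MvPolynomial.map φ F₀ = F := by
  classical
  choose r hr using h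
  refine ⟨∑ a ∈ F.support, MvPolynomial.monomial a (r a), ?_⟩
  rw [map_sum]
  conv_rhs => rw [F.as_sum]
  refine Finset.sum_congr rfl fun a _ => ?_
  rw [MvPolynomial.map_monomial, hr]

section PV

variable {k m : ℕ} {R S : Type*} [CommRing R] [CommRing S]

lemma PV_map (φ : R →+* S) (c : Fin k → ℤ) (α : Fin k → Fin (m + 1) → ℕ) (s : Fin k → R) :
    MvPolynomial.map φ (PV c α s) = PV c α (fun j => φ (s j)) := by
  unfold PV
  rw [map_sum]
  refine Finset.sum_congr rfl fun j _ => ?_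
  rw [map_mul, MvPolynomial.map_C, map_prod, map_mul, map_intCast]
  simp only [map_pow, MvPolynomial.map_X]

lemma PV_smul (c : Fin k → ℤ) (α : Fin k → Fin (m + 1) → ℕ) (t : R) (s : Fin k → R) :
    PV c α (fun j => t * s j) = MvPolynomial.C t * PV c α s := by
  unfold PV
  rw [Finset.mul_sum]
  refine Finset.sum_congr rfl fun j _ => ?_
  simp only [map_mul, map_intCast]
  ring

lemma mo_map (φ : R →+* S) (α : Fin k → Fin (m + 1) → ℕ) (i0 : Fin (m + 1)) (j : Fin k) :
    MvPolynomial.map φ (mo R α i0 j) = mo S α i0 j := by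
  unfold mo
  rw [map_prod]
  refine Finset.prod_congr rfl fun l _ => ?_
  rw [map_pow, MvPolynomial.map_X]

end PV

variable {E : Type} [Field E] [CharZero E] [Algebra ℚ E]

/-- the action of an automorphism on the coefficients -/
noncomputable def act {τ : Type*} (σ : E ≃ₐ[ℚ] E) : MvPolynomial τ E →+* MvPolynomial τ E :=
  MvPolynomial.map (σ : E →+* E)

omit [CharZero E] in
lemma act_act {τ : Type*} (σ σ' : E ≃ₐ[ℚ] E) (F : MvPolynomial τ E) :
    act σ (act σ' F) = act (σ * σ') F := by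
  unfold act
  rw [MvPolynomial.map_map]
  rfl

omit [CharZero E] in
lemma act_coeff {τ : Type*} (σ : E ≃ₐ[ℚ] E) (F : MvPolynomial τ E) (a : τ →₀ ℕ) :
    (act σ F).coeff a = σ (F.coeff a) := by
  unfold act
  rw [MvPolynomial.coeff_map]
  rfl

omit [CharZero E] in
lemma descent [FiniteDimensional ℚ E] [IsGalois ℚ E] {τ : Type*} (F : MvPolynomial τ E)
    (hF : ∀ σ : E ≃ₐ[ℚ] E, act σ F = F) :
    ∃ F₀ : MvPolynomial τ ℚ, MvPolynomial.map (algebraMap ℚ E) F₀ = F := by
  apply lift_poly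
  intro a
  have h := (IsGalois.mem_range_algebraMap_iff_fixed (F := ℚ) (F.coeff a)).mpr (by
    intro σ
    have h1 := act_coeff σ F a
    rw [hF] at h1
    exact h1.symm)
  exact h

omit [CharZero E] in
lemma norm_desc [FiniteDimensional ℚ E] [IsGalois ℚ E] {τ : Type*} (F : MvPolynomial τ E) :
    ∃ F₀ : MvPolynomial τ ℚ, MvPolynomial.map (algebraMap ℚ E) F₀ =
      ∏ σ : E ≃ₐ[ℚ] E, act σ F := by
  apply descent
  intro σ
  rw [map_prod, Finset.prod_congr rfl fun σ' _ => act_act σ σ' F]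
  exact Fintype.prod_equiv (Equiv.mulLeft σ) _ _ fun σ' => rfl

omit [CharZero E] in
lemma int_of_all_val (x : ℚ) (h : ∀ V : ValuationSubring E, algebraMap ℚ E x ∈ V) :
    ∃ n : ℤ, Int.castRingHom ℚ n = x := by
  have hint : IsIntegral ℤ (algebraMap ℚ E x) := by
    by_contra hcon
    have hx : algebraMap ℚ E x ∉ (integralClosure ℤ E).toSubring := hcon
    obtain ⟨V, _, hV⟩ := Subring.exists_le_valuationSubring_of_isIntegrallyClosedIn hx
    exact hV (h V)
  have hint2 : IsIntegral ℤ x := by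
    have h1 : Function.Injective (algebraMap ℚ E) := (algebraMap ℚ E).injective
    rw [← isIntegral_algebraMap_iff (R := ℤ) h1]
    exact hint
  obtain ⟨y, hy⟩ := IsIntegrallyClosed.isIntegral_iff.mp hint2
  exact ⟨y, hy⟩

omit [CharZero E] [Algebra ℚ E] in
lemma exists_max (V : ValuationSubring E) {k : ℕ} (hk : 0 < k) (u : Fin k → E)
    (hu : ∀ j, u j ≠ 0) :
    ∃ (γ : E) (v : Fin k → V), γ ≠ 0 ∧ (∀ j, u j = γ * (v j : E)) ∧ ∃ j, v j = 1 := by
  obtain ⟨j0, _, hj0⟩ := Finset.exists_max_image Finset.univ (fun j => V.valuation (u j))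
    ⟨⟨0, hk⟩, Finset.mem_univ _⟩
  have hmem : ∀ j, u j / u j0 ∈ V := by
    intro j
    rw [← V.valuation_le_one_iff, map_div₀]
    exact div_le_one_of_le₀ (hj0 j (Finset.mem_univ j)) zero_le
  refine ⟨u j0, fun j => ⟨u j / u j0, hmem j⟩, hu j0, fun j => ?_, j0, ?_⟩
  · show u j = u j0 * (u j / u j0)
    rw [mul_div_cancel₀ _ (hu j0)]
  · apply Subtype.ext
    show u j0 / u j0 = 1
    exact div_self (hu j0)

omit [CharZero E] [Algebra ℚ E] in
lemma root_mem (V : ValuationSubring E) {p : ℕ} (hp : 0 < p) {ζ : E} (hζ : ζ ^ p = 1) :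
    ζ ∈ V := by
  rcases V.mem_or_inv_mem ζ with h | h
  · exact h
  · have h1 : ζ = (ζ⁻¹) ^ (p - 1) := by
      have h0 : ζ ≠ 0 := by
        rintro rfl
        rw [zero_pow hp.ne'] at hζ
        exact zero_ne_one hζ
      rw [inv_pow]
      apply eq_inv_of_mul_eq_one_left
      rw [← pow_succ', Nat.sub_add_cancel hp, hζ]
    rw [h1]
    exact pow_mem h _

variable {k m : ℕ}

/-- integrality at a place -/
lemma val_main (V : ValuationSubring E) [Fintype (E ≃ₐ[ℚ] E)] {α : Fin k → Fin (m + 1) → ℕ}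
    (hα : Function.Injective α) (hk : 0 < k) (q : Fin k → E) (hq : ∀ j, q j ≠ 0)
    (P : MvPolynomial (Fin (m + 1)) ℤ) {b : E} (hb : b ≠ 0) {h : ℕ}
    (hN : ∏ σ : E ≃ₐ[ℚ] E, act σ (PV (fun _ => 1) α q) =
      MvPolynomial.C b * (MvPolynomial.map (Int.castRingHom E) P) ^ h)
    {p : ℕ} (hp : 0 < p) {ζ : E} (hζ : ζ ^ p = 1) {N : ℕ} (cov : Cov k N) (i0 : Fin (m + 1)) :
    ∃ T : MvPolynomial (Fin m) V, ∏ σ : E ≃ₐ[ℚ] E, act σ (cov.f (MvPolynomial (Fin m) E)
      (MvPolynomial.C ζ) (fun j => MvPolynomial.C (q j) * mo E α i0 j)) =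
      MvPolynomial.C (b ^ N) * MvPolynomial.map V.subtype T := by
  classical
  have hσq : ∀ (σ : E ≃ₐ[ℚ] E) j, σ (q j) ≠ 0 := fun σ j => by
    rw [Ne, map_eq_zero_iff σ σ.injective]; exact hq j
  choose γ v hγ hv hv1 using fun σ : E ≃ₐ[ℚ] E => exists_max V hk (fun j => σ (q j)) (hσq σ)
  -- the polynomials
  have hact : ∀ σ : E ≃ₐ[ℚ] E, act σ (PV (fun _ => 1) α q) = MvPolynomial.C (γ σ) *
      MvPolynomial.map V.subtype (PV (fun _ => 1) α (v σ)) := by
    intro σ
    unfold act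
    rw [PV_map, PV_map, ← PV_smul]
    congr 1
    funext j
    exact hv σ j
  set Γ : E := ∏ σ : E ≃ₐ[ℚ] E, γ σ with hΓ
  have hΓ0 : Γ ≠ 0 := Finset.prod_ne_zero_iff.mpr fun σ _ => hγ σ
  set β : E := b⁻¹ * Γ with hβ
  have hβ0 : β ≠ 0 := mul_ne_zero (inv_ne_zero hb) hΓ0
  have hΓβ : Γ = b * β := by
    rw [hβ, ← mul_assoc, mul_inv_cancel₀ hb, one_mul]
  clear_value β
  have hV0 : MvPolynomial.map (Int.castRingHom E) P =
      MvPolynomial.map V.subtype (MvPolynomial.map (Int.castRingHom V) P) := by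
    rw [MvPolynomial.map_map]
    congr 1
  have hprod : MvPolynomial.C β * MvPolynomial.map V.subtype
      (∏ σ : E ≃ₐ[ℚ] E, PV (fun _ => 1) α (v σ)) =
      MvPolynomial.map V.subtype ((MvPolynomial.map (Int.castRingHom V) P) ^ h) := by
    have h1 : MvPolynomial.C b * (MvPolynomial.C β * MvPolynomial.map V.subtype
        (∏ σ : E ≃ₐ[ℚ] E, PV (fun _ => 1) α (v σ))) =
        MvPolynomial.C b * MvPolynomial.map V.subtype
          ((MvPolynomial.map (Int.castRingHom V) P) ^ h) := by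
      calc _ = MvPolynomial.C (b * β) * MvPolynomial.map V.subtype
            (∏ σ : E ≃ₐ[ℚ] E, PV (fun _ => 1) α (v σ)) := by
            rw [MvPolynomial.C_mul, mul_assoc]
        _ = MvPolynomial.C Γ * MvPolynomial.map V.subtype
            (∏ σ : E ≃ₐ[ℚ] E, PV (fun _ => 1) α (v σ)) := by rw [← hΓβ]
        _ = _ := by
            rw [map_pow, ← hV0, ← hN, Finset.prod_congr rfl fun σ _ => hact σ,
              Finset.prod_mul_distrib, ← map_prod, ← map_prod]
    have h2 : (MvPolynomial.C b : MvPolynomial (Fin (m + 1)) E) ≠ 0 := by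
      rw [Ne, MvPolynomial.C_eq_zero]
      exact hb
    exact mul_left_cancel₀ h2 h1
  have hβV : β ∈ V := by
    by_contra hcon
    have hinv : β⁻¹ ∈ V := (V.mem_or_inv_mem β).resolve_left hcon
    set β' : V := ⟨β⁻¹, hinv⟩ with hβ'
    have hnu : β' ∈ IsLocalRing.maximalIdeal V := by
      rw [IsLocalRing.mem_maximalIdeal, mem_nonunits_iff]
      intro hu
      obtain ⟨u, hu⟩ := hu.exists_right_inv
      apply hcon
      have h1 : β⁻¹ * (u : E) = 1 := congrArg (fun x : V => (x : E)) hu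
      have h2 : β = (u : E) := by
        field_simp at h1
        exact h1.symm
      rw [h2]
      exact u.2
    have h1 : MvPolynomial.map V.subtype (∏ σ : E ≃ₐ[ℚ] E, PV (fun _ => 1) α (v σ)) =
        MvPolynomial.map V.subtype (MvPolynomial.C β' *
          (MvPolynomial.map (Int.castRingHom V) P) ^ h) := by
      rw [map_mul, ← hprod, MvPolynomial.map_C, ← mul_assoc, ← MvPolynomial.C_mul]
      have : V.subtype β' * β = 1 := inv_mul_cancel₀ hβ0
      rw [this, MvPolynomial.C_1, one_mul]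
    have h2 := MvPolynomial.map_injective V.subtype Subtype.val_injective h1
    have h3 := congrArg (MvPolynomial.map (IsLocalRing.residue V)) h2
    rw [map_mul, MvPolynomial.map_C, (IsLocalRing.residue_eq_zero_iff β').mpr hnu,
      MvPolynomial.C_0, zero_mul, map_prod] at h3
    obtain ⟨σ, _, hσ⟩ := Finset.prod_eq_zero_iff.mp h3
    rw [PV_map] at hσ
    obtain ⟨j, hj⟩ := hv1 σ
    have h4 := PV_coeff (fun _ => 1) hα (fun j => IsLocalRing.residue V (v σ j)) j
    rw [hσ, MvPolynomial.coeff_zero, hj, map_one] at h4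
    simp at h4
  -- the covariant
  have hζσ : ∀ σ : E ≃ₐ[ℚ] E, σ ζ ∈ V := fun σ => root_mem V hp (by rw [← map_pow, hζ, map_one])
  have hcov : ∀ σ : E ≃ₐ[ℚ] E, act σ (cov.f (MvPolynomial (Fin m) E)
      (MvPolynomial.C ζ) (fun j => MvPolynomial.C (q j) * mo E α i0 j)) =
      MvPolynomial.C (γ σ) ^ N * MvPolynomial.map V.subtype (cov.f (MvPolynomial (Fin m) V)
        (MvPolynomial.C ⟨σ ζ, hζσ σ⟩) (fun j => MvPolynomial.C (v σ j) * mo V α i0 j)) := by
    intro σ
    rw [cov.map _ _ (act σ), cov.map _ _ (MvPolynomial.map V.subtype), ← cov.smul]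
    congr 1
    · unfold act
      rw [MvPolynomial.map_C, MvPolynomial.map_C]
      rfl
    · funext j
      unfold act
      rw [map_mul, map_mul, mo_map, mo_map, MvPolynomial.map_C, MvPolynomial.map_C, ← mul_assoc,
        ← MvPolynomial.C_mul]
      congr 2
      exact hv σ j
  refine ⟨MvPolynomial.C (⟨β, hβV⟩ ^ N) * ∏ σ : E ≃ₐ[ℚ] E, cov.f (MvPolynomial (Fin m) V)
        (MvPolynomial.C ⟨σ ζ, hζσ σ⟩) (fun j => MvPolynomial.C (v σ j) * mo V α i0 j), ?_⟩
  rw [Finset.prod_congr rfl fun σ _ => hcov σ, Finset.prod_mul_distrib, map_mul, map_prod,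
    MvPolynomial.map_C, ← mul_assoc, ← MvPolynomial.C_mul, map_pow, Finset.prod_pow,
    ← map_prod, ← hΓ, ← MvPolynomial.C_pow]
  congr 2
  rw [← mul_pow]
  congr 1

/-- integrality -/
theorem exists_int [FiniteDimensional ℚ E] [IsGalois ℚ E] {α : Fin k → Fin (m + 1) → ℕ}
    (hα : Function.Injective α) (hk : 0 < k) (q : Fin k → E) (hq : ∀ j, q j ≠ 0)
    (P : MvPolynomial (Fin (m + 1)) ℤ) {b : ℚ} (hb : b ≠ 0) {h : ℕ}
    (hN : ∏ σ : E ≃ₐ[ℚ] E, act σ (PV (fun _ => 1) α q) =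
      MvPolynomial.C (algebraMap ℚ E b) * (MvPolynomial.map (Int.castRingHom E) P) ^ h)
    {p : ℕ} (hp : 0 < p) {ζ : E} (hζ : ζ ^ p = 1) {N : ℕ} (cov : Cov k N) (i0 : Fin (m + 1)) :
    ∃ T : MvPolynomial (Fin m) ℤ, ∏ σ : E ≃ₐ[ℚ] E, act σ (cov.f (MvPolynomial (Fin m) E)
      (MvPolynomial.C ζ) (fun j => MvPolynomial.C (q j) * mo E α i0 j)) =
      MvPolynomial.C (algebraMap ℚ E b ^ N) * MvPolynomial.map (Int.castRingHom E) T := by
  classical
  have hbE : algebraMap ℚ E b ≠ 0 := by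
    rw [Ne, map_eq_zero_iff _ (algebraMap ℚ E).injective]
    exact hb
  obtain ⟨T₀, hT₀⟩ := norm_desc (cov.f (MvPolynomial (Fin m) E)
      (MvPolynomial.C ζ) (fun j => MvPolynomial.C (q j) * mo E α i0 j))
  obtain ⟨T, hT⟩ := lift_poly (Int.castRingHom ℚ) (MvPolynomial.C (b⁻¹ ^ N) * T₀) (by
    intro a
    apply int_of_all_val (E := E)
    intro V
    obtain ⟨TV, hTV⟩ := val_main V hα hk q hq P hbE hN hp hζ cov i0
    have h1 : MvPolynomial.map (algebraMap ℚ E) (MvPolynomial.C (b⁻¹ ^ N) * T₀) =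
        MvPolynomial.map V.subtype TV := by
      rw [map_mul, hT₀, hTV, MvPolynomial.map_C, ← mul_assoc, ← MvPolynomial.C_mul, map_pow,
        map_inv₀, ← mul_pow, inv_mul_cancel₀ hbE, one_pow, MvPolynomial.C_1, one_mul]
    have h2 := congrArg (MvPolynomial.coeff a) h1
    rw [MvPolynomial.coeff_map, MvPolynomial.coeff_map] at h2
    rw [h2]
    exact (TV.coeff a).2)
  refine ⟨T, ?_⟩
  rw [← hT₀]
  have h1 : T₀ = MvPolynomial.C (b ^ N) * MvPolynomial.map (Int.castRingHom ℚ) T := by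
    rw [hT, ← mul_assoc, ← MvPolynomial.C_mul, ← mul_pow, mul_inv_cancel₀ hb, one_pow,
      MvPolynomial.C_1, one_mul]
  rw [h1, map_mul, MvPolynomial.map_C, map_pow, MvPolynomial.map_map]
  congr 2
  congr 1
  exact RingHom.ext_int _ _

end Pool.Agent.Helper99.MVQ
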