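import Mathlib
import Pool.Agent.Helper99.MVQ.In
import Pool.Agent.Helper99.MVL.Iv

/-!
# Irreducible factors over a Galois extension
-/

set_option autoImplicit false

open Finset

namespace Pool.Agent.Helper99.MVQ

open Pool.Agent.Helper99.TD Pool.Agent.Helper99.MVL

section Sc

variable {K : Type*} [Field K] [CharZero K] {s : ℕ}

/-- the scaling of the variables by powers of two -/
noncomputable def Sc (K : Type*) [Field K] {s : ℕ} (u : Fin s → ℤ) :
    MvPolynomial (Fin s) K →ₐ[K] MvPolynomial (Fin s) K :=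
  MvPolynomial.aeval (fun l => MvPolynomial.C ((2:K) ^ (u l)) * MvPolynomial.X l)

lemma prod_zp {ι : Type*} (S : Finset ι) (f : ι → ℤ) :
    ∏ l ∈ S, (2:K) ^ (f l) = (2:K) ^ (∑ l ∈ S, f l) := by
  classical
  induction S using Finset.induction_on with
  | empty => simp
  | insert a S ha ih => rw [Finset.prod_insert ha, Finset.sum_insert ha, ih, zpow_add₀ two_ne_zero]

lemma Sc_monomial (u : Fin s → ℤ) (a : Fin s →₀ ℕ) (c : K) :
    Sc K u (MvPolynomial.monomial a c) =
      MvPolynomial.monomial a ((2:K) ^ (∑ l, u l * (a l : ℤ)) * c) := by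
  unfold Sc
  rw [MvPolynomial.aeval_monomial, Finsupp.prod_fintype _ _ (fun i => pow_zero _),
    MvPolynomial.monomial_eq, Finsupp.prod_fintype _ _ (fun i => pow_zero _)]
  have h1 : ∀ l, (MvPolynomial.C ((2:K) ^ (u l)) * MvPolynomial.X l : MvPolynomial (Fin s) K) ^ (a l) =
      MvPolynomial.C ((2:K) ^ (u l * (a l : ℤ))) * MvPolynomial.X l ^ (a l) := by
    intro l
    rw [mul_pow, ← MvPolynomial.C_pow, zpow_mul, zpow_natCast]
  rw [Finset.prod_congr rfl fun l _ => h1 l, Finset.prod_mul_distrib, ← map_prod, prod_zp,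
    ← mul_assoc, MvPolynomial.algebraMap_eq, ← MvPolynomial.C_mul, mul_comm c]

lemma Sc_coeff (u : Fin s → ℤ) (F : MvPolynomial (Fin s) K) (a : Fin s →₀ ℕ) :
    (Sc K u F).coeff a = (2:K) ^ (∑ l, u l * (a l : ℤ)) * F.coeff a := by
  classical
  conv_lhs => rw [F.as_sum]
  conv_rhs => rw [F.as_sum]
  rw [map_sum, MvPolynomial.coeff_sum, MvPolynomial.coeff_sum, Finset.mul_sum]
  refine Finset.sum_congr rfl fun b _ => ?_
  rw [Sc_monomial, MvPolynomial.coeff_monomial, MvPolynomial.coeff_monomial]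
  by_cases h : b = a
  · rw [if_pos h, if_pos h, h]
  · rw [if_neg h, if_neg h, mul_zero]

lemma Sc_support (u : Fin s → ℤ) (F : MvPolynomial (Fin s) K) :
    (Sc K u F).support = F.support := by
  ext a
  rw [MvPolynomial.mem_support_iff, MvPolynomial.mem_support_iff, Sc_coeff]
  have : (2:K) ^ (∑ l, u l * (a l : ℤ)) ≠ 0 := zpow_ne_zero _ two_ne_zero
  simp [this]

lemma Sc_hom (u : Fin s → ℤ) (F : MvPolynomial (Fin s) K) (κ : ℤ)
    (h : ∀ a ∈ F.support, ∑ l, u l * (a l : ℤ) = κ) :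
    Sc K u F = MvPolynomial.C ((2:K) ^ κ) * F := by
  ext a
  rw [Sc_coeff, MvPolynomial.coeff_C_mul]
  by_cases ha : a ∈ F.support
  · rw [h a ha]
  · rw [MvPolynomial.notMem_support_iff] at ha
    rw [ha, mul_zero, mul_zero]

lemma Sc_map {L : Type*} [Field L] [CharZero L] (φ : K →+* L) (u : Fin s → ℤ)
    (F : MvPolynomial (Fin s) K) :
    Sc L u (MvPolynomial.map φ F) = MvPolynomial.map φ (Sc K u F) := by
  ext a
  rw [Sc_coeff, MvPolynomial.coeff_map, MvPolynomial.coeff_map, Sc_coeff, map_mul, map_zpow₀,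
    map_ofNat]

/-- a prime polynomial, a power of which is homogeneous, is homogeneous -/
lemma hom_of_pow (u : Fin s → ℤ) (F : MvPolynomial (Fin s) ℚ) (hF : Prime F) {h : ℕ} (hh : h ≠ 0)
    {l : ℚ} (hS : (Sc ℚ u F) ^ h = MvPolynomial.C l * F ^ h) :
    ∀ a ∈ F.support, ∀ b ∈ F.support, ∑ l, u l * (a l : ℤ) = ∑ l, u l * (b l : ℤ) := by
  have h1 : F ∣ (Sc ℚ u F) ^ h := by
    rw [hS]
    exact Dvd.dvd.mul_left (dvd_pow_self F hh) _
  obtain ⟨G, hG⟩ := hF.dvd_of_dvd_pow h1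
  have hF0 : F ≠ 0 := hF.ne_zero
  have hSF0 : Sc ℚ u F ≠ 0 := by
    intro h0
    have := Sc_support u F
    rw [h0, MvPolynomial.support_zero] at this
    exact hF0 (MvPolynomial.support_eq_empty.mp this.symm)
  have hG0 : G ≠ 0 := by
    rintro rfl
    rw [mul_zero] at hG
    exact hSF0 hG
  have htd : (Sc ℚ u F).totalDegree = F.totalDegree := by
    unfold MvPolynomial.totalDegree
    rw [Sc_support]
  have h3 : G.totalDegree = 0 := by
    have h4 := congrArg MvPolynomial.totalDegree hG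
    rw [MvPolynomial.totalDegree_mul_of_isDomain hF0 hG0, htd] at h4
    omega
  rw [MvPolynomial.totalDegree_eq_zero_iff_eq_C] at h3
  have h5 : ∀ a ∈ F.support, (2:ℚ) ^ (∑ l, u l * (a l : ℤ)) = MvPolynomial.coeff 0 G := by
    intro a ha
    have h6 := congrArg (MvPolynomial.coeff a) hG
    rw [h3, mul_comm F, MvPolynomial.coeff_C_mul, Sc_coeff] at h6
    exact mul_right_cancel₀ (MvPolynomial.mem_support_iff.mp ha) h6
  intro a ha b hb
  have h7 := (h5 a ha).trans (h5 b hb).symm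
  exact zpow_right_injective₀ (by norm_num : (0:ℚ) < 2) (by norm_num) h7

end Sc

/-- the enumeration of the monomials -/
lemma enum_data {m : ℕ} {E : Type} [Field E] (Q : MvPolynomial (Fin (m + 1)) E)
    (i0 : Fin (m + 1))
    (hQ : ∀ u : Fin (m + 1) → ℤ, (∀ a ∈ Q.support, ∀ b ∈ Q.support,
      ∑ i, u i * (a i : ℤ) = ∑ i, u i * (b i : ℤ)) → u = 0) :
    ∃ (k : ℕ) (α : Fin k → Fin (m + 1) → ℕ) (q : Fin k → E), Function.Injective α ∧ Full α ∧
      (∀ j, q j ≠ 0) ∧ 0 < Q.degreeOf i0 ∧ (∀ j, α j i0 ≤ Q.degreeOf i0) ∧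
      (∃ jt, α jt i0 = Q.degreeOf i0) ∧ PV (fun _ => 1) α q = Q := by
  classical
  set k := Q.support.card with hk
  let e : Fin k ≃ Q.support := Q.support.equivFin.symm
  set c : Fin k → E := fun j => Q.coeff (e j) with hc
  set α : Fin k → Fin (m + 1) → ℕ := fun j l => (e j : Fin (m + 1) →₀ ℕ) l with hα
  have hαinj : Function.Injective α := by
    intro j j' h
    apply e.injective
    apply Subtype.ext
    ext l
    exact congrFun h l
  have hfull : Full α := by
    intro u hu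
    apply hQ
    intro a ha b hb
    have := hu (e.symm ⟨a, ha⟩) (e.symm ⟨b, hb⟩)
    simpa [hα] using this
  have hcne : ∀ j, c j ≠ 0 := fun j => MvPolynomial.mem_support_iff.mp (e j).2
  have hle : ∀ j, α j i0 ≤ Q.degreeOf i0 := by
    intro j
    rw [MvPolynomial.degreeOf_eq_sup]
    exact Finset.le_sup (f := fun m : Fin (m + 1) →₀ ℕ => m i0) (e j).2
  have hne : Q.support.Nonempty := by
    by_contra hcon
    rw [Finset.not_nonempty_iff_eq_empty] at hcon
    have h2 := hQ (fun _ => 1) (by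
      intro a ha
      rw [hcon] at ha
      exact absurd ha (Finset.notMem_empty a))
    have := congrFun h2 i0
    simp at this
  have hmax : ∃ jt, α jt i0 = Q.degreeOf i0 := by
    obtain ⟨a, ha, ha2⟩ := Finset.exists_mem_eq_sup Q.support hne
      (fun m : Fin (m + 1) →₀ ℕ => m i0)
    refine ⟨e.symm ⟨a, ha⟩, ?_⟩
    rw [MvPolynomial.degreeOf_eq_sup, ha2]
    simp [hα]
  have hpos : 0 < Q.degreeOf i0 := by
    by_contra hcon
    have h0 : ∀ a ∈ Q.support, a i0 = 0 := by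
      intro a ha
      have h1 := Finset.le_sup (f := fun m : Fin (m + 1) →₀ ℕ => m i0) ha
      rw [← MvPolynomial.degreeOf_eq_sup] at h1
      omega
    have h2 := hQ (fun l => if l = i0 then 1 else 0) (by
      intro a ha b hb
      simp [h0 a ha, h0 b hb])
    have := congrFun h2 i0
    simp at this
  refine ⟨k, α, c, hαinj, hfull, hcne, hpos, hle, hmax, ?_⟩
  rw [PV_eq]
  conv_rhs => rw [Q.as_sum]
  rw [← Finset.sum_coe_sort Q.support, ← Equiv.sum_comp e]
  refine Finset.sum_congr rfl fun j _ => ?_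
  have hfs : fs (α j) = (e j : Fin (m + 1) →₀ ℕ) := by
    ext l
    rfl
  rw [Int.cast_one, one_mul, hfs]

/-- the factorisation over a Galois extension -/
theorem factor_data {m : ℕ} (P : MvPolynomial (Fin (m + 1)) ℤ) (hP : FullDim P)
    (i0 : Fin (m + 1)) (hirr : Irreducible (MvPolynomial.map (Int.castRingHom ℚ) P))
    (E : Type) [Field E] [CharZero E] [Algebra ℚ E] [FiniteDimensional ℚ E] [IsGalois ℚ E] :
    ∃ (k : ℕ) (α : Fin k → Fin (m + 1) → ℕ) (q : Fin k → E) (b : ℚ) (h D : ℕ),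
      Function.Injective α ∧ Full α ∧ (∀ j, q j ≠ 0) ∧ Irreducible (PV (fun _ => 1) α q) ∧
      b ≠ 0 ∧ h ≤ Fintype.card (E ≃ₐ[ℚ] E) ∧
      ∏ σ : E ≃ₐ[ℚ] E, act σ (PV (fun _ => 1) α q) =
        MvPolynomial.C (algebraMap ℚ E b) * (MvPolynomial.map (Int.castRingHom E) P) ^ h ∧
      0 < D ∧ D ≤ P.degreeOf i0 ∧ (∀ j, α j i0 ≤ D) ∧ (∃ jt, α jt i0 = D) := by
  classical
  set PQ := MvPolynomial.map (Int.castRingHom ℚ) P with hPQ
  set PE := MvPolynomial.map (Int.castRingHom E) P with hPE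
  have hPEQ : PE = MvPolynomial.map (algebraMap ℚ E) PQ := by
    have h1 : (algebraMap ℚ E).comp (Int.castRingHom ℚ) = Int.castRingHom E :=
      RingHom.ext_int _ _
    rw [hPE, hPQ, MvPolynomial.map_map, h1]
  have hinjE : Function.Injective (algebraMap ℚ E) := (algebraMap ℚ E).injective
  have hPQ0 : PQ ≠ 0 := hirr.ne_zero
  have hPE0 : PE ≠ 0 := by
    rw [hPEQ]
    intro h0
    exact hPQ0 (MvPolynomial.map_injective _ hinjE (by rw [h0, map_zero]))
  have hsuppP : PE.support = P.support :=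
    MvPolynomial.support_map_of_injective _ (RingHom.injective_int _)
  have hsuppQ : PQ.support = P.support :=
    MvPolynomial.support_map_of_injective _ (RingHom.injective_int _)
  have hPEu : ¬ IsUnit PE := by
    intro hu
    obtain ⟨r, _, hr⟩ := MvPolynomial.isUnit_iff_eq_C_of_isReduced.mp hu
    have h1 : ∀ a ∈ P.support, a = 0 := by
      intro a ha
      rw [← hsuppP, hr, MvPolynomial.mem_support_iff, MvPolynomial.coeff_C] at ha
      by_contra hcon
      apply ha
      rw [if_neg (Ne.symm hcon)]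
    have h2 := hP (fun _ => 1) (by
      intro a ha b hb
      rw [h1 a ha, h1 b hb])
    have := congrFun h2 i0
    simp at this
  obtain ⟨Q, hQirr, hQdvd⟩ := WfDvdMonoid.exists_irreducible_factor hPEu hPE0
  have hQ0 : Q ≠ 0 := hQirr.ne_zero
  have hactinj : ∀ σ : E ≃ₐ[ℚ] E, Function.Injective (act (τ := Fin (m + 1)) σ) := fun σ =>
    MvPolynomial.map_injective _ (by exact σ.injective)
  have hactPE : ∀ σ : E ≃ₐ[ℚ] E, act σ PE = PE := by
    intro σ
    unfold act
    have h1 : (σ : E →+* E).comp (Int.castRingHom E) = Int.castRingHom E := RingHom.ext_int _ _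
    rw [hPE, MvPolynomial.map_map, h1]
  set n := Fintype.card (E ≃ₐ[ℚ] E) with hn
  set R := ∏ σ : E ≃ₐ[ℚ] E, act σ Q with hR
  have hR0 : R ≠ 0 := Finset.prod_ne_zero_iff.mpr fun σ _ => by
    rw [Ne, map_eq_zero_iff _ (hactinj σ)]
    exact hQ0
  obtain ⟨R₀, hR₀⟩ := norm_desc Q
  rw [← hR] at hR₀
  have hRdvd : R ∣ PE ^ n := by
    have h1 : R ∣ ∏ σ : E ≃ₐ[ℚ] E, PE := by
      apply Finset.prod_dvd_prod_of_dvd
      intro σ _
      have h2 := map_dvd (act σ) hQdvd
      rwa [hactPE] at h2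
    rwa [Finset.prod_const, Finset.card_univ] at h1
  have hactR : ∀ σ : E ≃ₐ[ℚ] E, act σ R = R := by
    intro σ
    rw [hR, map_prod, Finset.prod_congr rfl fun σ' _ => act_act σ σ' Q]
    exact Fintype.prod_equiv (Equiv.mulLeft σ) _ _ fun σ' => rfl
  obtain ⟨C', hC'⟩ := hRdvd
  obtain ⟨C₀, hC₀⟩ := descent C' (by
    intro σ
    have h1 := congrArg (act σ) hC'
    rw [map_pow, hactPE, map_mul, hactR, hC'] at h1
    exact (mul_left_cancel₀ hR0 h1).symm)
  have hR₀dvd : R₀ ∣ PQ ^ n := by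
    refine ⟨C₀, ?_⟩
    apply MvPolynomial.map_injective _ hinjE
    rw [map_pow, ← hPEQ, hC', map_mul, hR₀, hC₀]
  have hprime : Prime PQ := (UniqueFactorizationMonoid.irreducible_iff_prime).mp hirr
  obtain ⟨h, hhn, hassoc⟩ := (dvd_prime_pow hprime n).mp hR₀dvd
  obtain ⟨b, hb, hRb⟩ : ∃ b : ℚ, b ≠ 0 ∧ R₀ = MvPolynomial.C b * PQ ^ h := by
    obtain ⟨v, hv⟩ := hassoc.symm
    obtain ⟨r, hr, hr2⟩ := MvPolynomial.isUnit_iff_eq_C_of_isReduced.mp v.isUnit
    exact ⟨r, hr.ne_zero, by rw [← hv, hr2, mul_comm]⟩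
  have hRPE : R = MvPolynomial.C (algebraMap ℚ E b) * PE ^ h := by
    rw [← hR₀, hRb, map_mul, MvPolynomial.map_C, map_pow, ← hPEQ]
  have hQu : ¬ IsUnit Q := hQirr.not_isUnit
  have hh0 : h ≠ 0 := by
    intro h0
    apply hQu
    have h1 : act (1 : E ≃ₐ[ℚ] E) Q ∣ R := Finset.dvd_prod_of_mem _ (Finset.mem_univ _)
    have h2 : act (1 : E ≃ₐ[ℚ] E) Q = Q := by
      ext a
      rw [act_coeff]
      rfl
    rw [h2, hRPE, h0, pow_zero, mul_one] at h1
    apply isUnit_of_dvd_unit h1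
    apply IsUnit.map
    rw [isUnit_iff_ne_zero, Ne, map_eq_zero_iff _ hinjE]
    exact hb
  -- fullness
  have hfull : ∀ u : Fin (m + 1) → ℤ, (∀ a ∈ Q.support, ∀ b ∈ Q.support,
      ∑ i, u i * (a i : ℤ) = ∑ i, u i * (b i : ℤ)) → u = 0 := by
    intro u hu
    obtain ⟨a0, ha0⟩ : Q.support.Nonempty := by
      rw [Finset.nonempty_iff_ne_empty, Ne, MvPolynomial.support_eq_empty]
      exact hQ0
    set κ := ∑ i, u i * (a0 i : ℤ) with hκ
    have hκ' : ∀ a ∈ Q.support, ∑ i, u i * (a i : ℤ) = κ := fun a ha => hu a ha a0 ha0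
    have hScR : Sc E u R = MvPolynomial.C ((2:E) ^ κ) ^ n * R := by
      have h1 : ∀ σ : E ≃ₐ[ℚ] E, Sc E u (act σ Q) = MvPolynomial.C ((2:E) ^ κ) * act σ Q := by
        intro σ
        apply Sc_hom
        intro a ha
        apply hκ'
        rw [MvPolynomial.mem_support_iff, act_coeff] at ha
        rw [MvPolynomial.mem_support_iff]
        intro h0
        apply ha
        rw [h0, map_zero]
      rw [hR, map_prod, Finset.prod_congr rfl fun σ _ => h1 σ, Finset.prod_mul_distrib,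
        Finset.prod_const, Finset.card_univ]
    have hScP : (Sc ℚ u PQ) ^ h = MvPolynomial.C (((2:ℚ) ^ κ) ^ n) * PQ ^ h := by
      apply MvPolynomial.map_injective _ hinjE
      rw [map_pow, ← Sc_map, ← hPEQ, map_mul, MvPolynomial.map_C, map_pow (MvPolynomial.map _) PQ,
        ← hPEQ, map_pow (algebraMap ℚ E), map_zpow₀, map_ofNat, MvPolynomial.C_pow]
      have h2 := hScR
      rw [hRPE, map_mul, map_pow] at h2
      have h3 : Sc E u (MvPolynomial.C (algebraMap ℚ E b)) =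
          (MvPolynomial.C (algebraMap ℚ E b) : MvPolynomial (Fin (m + 1)) E) := by
        unfold Sc
        rw [MvPolynomial.aeval_C]
        rfl
      rw [h3] at h2
      have h4 : (MvPolynomial.C (algebraMap ℚ E b) : MvPolynomial (Fin (m + 1)) E) ≠ 0 := by
        rw [Ne, MvPolynomial.C_eq_zero, map_eq_zero_iff _ hinjE]
        exact hb
      apply mul_left_cancel₀ h4
      rw [h2]
      ring
    apply hP
    have h5 := hom_of_pow u PQ hprime hh0 hScP
    rw [hsuppQ] at h5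
    exact h5
  obtain ⟨k, α, q, hα, hαf, hq, hpos, hle, hmax, hPV⟩ := enum_data Q i0 hfull
  refine ⟨k, α, q, b, h, Q.degreeOf i0, hα, hαf, hq, by rw [hPV]; exact hQirr, hb, hhn, ?_, hpos,
    ?_, hle, hmax⟩
  · rw [hPV]
    exact hRPE
  · obtain ⟨G, hG⟩ := hQdvd
    have hG0 : G ≠ 0 := by
      rintro rfl
      rw [mul_zero] at hG
      exact hPE0 hG
    have h1 : PE.degreeOf i0 = P.degreeOf i0 := by
      rw [MvPolynomial.degreeOf_eq_sup, MvPolynomial.degreeOf_eq_sup, hsuppP]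
    rw [← h1, hG, MvPolynomial.degreeOf_mul_eq hQ0 hG0]
    omega

end Pool.Agent.Helper99.MVQ
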