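import Mathlib
import Pool.Agent.Helper99.MVL.As

/-!
# Complex trigonometric polynomials on the torus
-/

set_option autoImplicit false

open Finset Polynomial MeasureTheory Filter

namespace Pool.Agent.Helper99.MVQ

open Pool.Agent.Helper99.TD Pool.Agent.Helper99.MVL
open Pool.Agent.H261R2.CM (tv mM spec AsympIndep F_continuous_tv mM_upper one_le_mM spec_ne_zero
  asympIndep_pow F_pt F_mFourier_pt F_bound)

variable {k m : ℕ}

/-- the trigonometric polynomial with coefficients `u` -/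
noncomputable def tq (u : Fin k → ℂ) (α : Fin k → Fin (m + 1) → ℕ) (x : Fin (m + 1) → ℝ) : ℂ :=
  ∑ j, u j * ∏ l, exv x l ^ (α j l)

/-- the same function on the torus -/
noncomputable def TG (u : Fin k → ℂ) (α : Fin k → Fin (m + 1) → ℕ) :
    C(UnitAddTorus (Fin (m + 1)), ℂ) :=
  ∑ j, u j • UnitAddTorus.mFourier (fun l => (α j l : ℤ))

lemma TG_pt (u : Fin k → ℂ) (α : Fin k → Fin (m + 1) → ℕ) (x : Fin (m + 1) → ℝ) :
    TG u α (F_pt x) = tq u α x := by
  unfold TG tq
  rw [ContinuousMap.coe_sum, Finset.sum_apply]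
  refine Finset.sum_congr rfl fun j _ => ?_
  rw [ContinuousMap.smul_apply, F_mFourier_pt, smul_eq_mul]
  congr 1
  refine Finset.prod_congr rfl fun l _ => ?_
  unfold exv
  rw [← Complex.exp_nat_mul]
  congr 1
  push_cast
  ring

lemma tq_cont (u : Fin k → ℂ) (α : Fin k → Fin (m + 1) → ℕ) : Continuous (tq u α) := by
  have : tq u α = fun x => TG u α (F_pt x) := by
    funext x
    exact (TG_pt u α x).symm
  rw [this]
  exact (TG u α).continuous.comp Pool.Agent.H261R2.CM.F_continuous_pt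

lemma tq_bound (u : Fin k → ℂ) (α : Fin k → Fin (m + 1) → ℕ) (x : Fin (m + 1) → ℝ) :
    ‖tq u α x‖ ≤ ∑ j, ‖u j‖ := by
  unfold tq
  refine (norm_sum_le _ _).trans (Finset.sum_le_sum fun j _ => ?_)
  rw [norm_mul, norm_prod]
  have h1 : ∀ l, ‖exv x l ^ (α j l)‖ = 1 := by
    intro l
    rw [norm_pow]
    have : ‖exv x l‖ = 1 := ep_norm (x l)
    rw [this, one_pow]
  rw [Finset.prod_congr rfl fun l _ => h1 l, Finset.prod_const_one, mul_one]

/-- equidistribution for the regularised logarithm -/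
lemma equi2_tq (𝓕 : Filter ℕ) (e : ℕ → Fin m → ℕ) (he : AsympIndep 𝓕 e)
    (c : Fin (m + 1) → ℝ) (i0 : Fin (m + 1)) (u : Fin k → ℂ) (α : Fin k → Fin (m + 1) → ℕ) {δ : ℝ}
    (hδ : 0 < δ) :
    Tendsto (fun n => ∫ τ in (0:ℝ)..1, ∫ t in (0:ℝ)..1,
        Real.log (‖tq u α (c + pt2 i0 (e n) t τ)‖ ^ 2 + δ)) 𝓕
      (nhds (∫ t in Set.Icc (0 : Fin (m + 1) → ℝ) 1, Real.log (‖tq u α t‖ ^ 2 + δ))) := by
  have hg : Continuous fun x : UnitAddTorus (Fin (m + 1)) => Real.log (‖TG u α x‖ ^ 2 + δ) := by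
    apply Continuous.log
    · have h1 := (TG u α).continuous
      fun_prop
    · intro x
      positivity
  have h := equi2_real 𝓕 e he c i0 _ hg
  have h1 : ∀ x, tq u α x = TG u α (F_pt x) := fun x => (TG_pt u α x).symm
  simp only [h1]
  exact h

/-- the values on the two dimensional subtorus -/
lemma eval_tq (α : Fin k → Fin (m + 1) → ℕ) (u : Fin k → ℂ) (i0 : Fin (m + 1)) (e : Fin m → ℕ)
    {w : Fin k → ℕ} {μ κ : ℂ} {cc : Fin (m + 1) → ℝ}
    (h : ∀ j, μ ^ (w j) = κ * ∏ l, exv cc l ^ (α j l)) (t τ : ℝ) :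
    eval (ep t) (TP (fun _ => 1) (fun j => α j i0) (yt μ w (fun j => u j *
      ∏ l, (ep τ ^ (e l)) ^ (α j (i0.succAbove l))))) =
      κ * tq u α (cc + pt2 i0 e t τ) := by
  unfold tq
  rw [Finset.mul_sum]
  unfold TP
  rw [eval_finsetSum]
  refine Finset.sum_congr rfl fun j _ => ?_
  rw [eval_mul, eval_C, eval_pow, eval_X]
  unfold yt
  dsimp only
  rw [h j]
  have h1 : ∏ l, exv (cc + pt2 i0 e t τ) l ^ (α j l) =
      (∏ l, exv cc l ^ (α j l)) * (ep t ^ (α j i0) *
        ∏ l, (ep τ ^ (e l)) ^ (α j (i0.succAbove l))) := by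
    have e1 : ∀ l, exv (cc + pt2 i0 e t τ) l ^ (α j l) =
        exv cc l ^ (α j l) * exv (pt2 i0 e t τ) l ^ (α j l) := by
      intro l
      rw [exv_add, mul_pow]
    rw [Finset.prod_congr rfl fun l _ => e1 l, Finset.prod_mul_distrib]
    congr 1
    rw [Fin.prod_univ_succAbove _ i0]
    have e2 : exv (pt2 i0 e t τ) i0 = ep t := by
      unfold exv ep
      rw [pt2_same]
    have e3 : ∀ l, exv (pt2 i0 e t τ) (i0.succAbove l) = ep τ ^ (e l) := by
      intro l
      rw [ep_pow]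
      unfold exv
      rw [pt2_other]
    rw [e2]
    congr 1
    refine Finset.prod_congr rfl fun l _ => ?_
    rw [e3]
  rw [h1, Int.cast_one]
  ring

lemma reg_cont' (u : Fin k → ℂ) (α : Fin k → Fin (m + 1) → ℕ) (x0 : Fin (m + 1) → ℝ)
    (i0 : Fin (m + 1)) (e : Fin m → ℕ) {δ : ℝ} (hδ : 0 < δ) {Y : Type*} [TopologicalSpace Y]
    {f g : Y → ℝ} (hf : Continuous f) (hg : Continuous g) :
    Continuous (fun q : Y =>
      (1 / 2 : ℝ) * Real.log (‖tq u α (x0 + pt2 i0 e (f q) (g q))‖ ^ 2 + δ)) := by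
  have h0 : Continuous (fun q : Y => pt2 i0 e (f q) (g q)) := by
    refine continuous_pi fun j => ?_
    rcases Fin.eq_self_or_eq_succAbove i0 j with h | ⟨l, h⟩
    · subst h
      simp only [pt2_same]
      exact hf
    · subst h
      simp only [pt2_other]
      exact continuous_const.mul hg
  have h1 : Continuous (fun q : Y => tq u α (x0 + pt2 i0 e (f q) (g q))) :=
    (tq_cont u α).comp (continuous_const.add h0)
  apply Continuous.mul continuous_const
  apply Continuous.log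
  · fun_prop
  · intro q
    positivity

lemma reg_int_cont' (u : Fin k → ℂ) (α : Fin k → Fin (m + 1) → ℕ) (x0 : Fin (m + 1) → ℝ)
    (i0 : Fin (m + 1)) (e : Fin m → ℕ) {δ : ℝ} (hδ : 0 < δ) :
    Continuous (fun τ : ℝ => ∫ t in (0:ℝ)..1,
      (1 / 2 : ℝ) * Real.log (‖tq u α (x0 + pt2 i0 e t τ)‖ ^ 2 + δ)) := by
  apply intervalIntegral.continuous_parametric_intervalIntegral_of_continuous' (μ := volume)
  exact reg_cont' u α x0 i0 e hδ (Y := ℝ × ℝ) continuous_snd continuous_fst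

/-- comparison of the products -/
lemma prod_add_le {γ : Type*} (S : Finset γ) {a : γ → ℝ} (ha : ∀ g, 0 ≤ a g) {B : ℝ}
    (haB : ∀ g, a g ≤ B) {δ : ℝ} (hδ : 0 ≤ δ) (hδ1 : δ ≤ 1) :
    ∏ g ∈ S, (a g + δ) ≤ ∏ g ∈ S, a g + δ * (S.card * (B + 1) ^ S.card) := by
  classical
  rcases isEmpty_or_nonempty γ with hem | ⟨⟨g0⟩⟩
  · have : S = ∅ := Finset.eq_empty_of_isEmpty S
    rw [this]
    simp
  have hB0 : 0 ≤ B := (ha g0).trans (haB g0)
  induction S using Finset.induction_on with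
  | empty => simp
  | insert g S hg ih =>
    rw [Finset.prod_insert hg, Finset.prod_insert hg, Finset.card_insert_of_notMem hg]
    have h1 : (∏ x ∈ S, a x) ≤ (B + 1) ^ S.card := by
      calc ∏ x ∈ S, a x ≤ ∏ x ∈ S, (B + 1) :=
            Finset.prod_le_prod (fun x _ => ha x) fun x _ => (haB x).trans (by linarith)
        _ = _ := by rw [Finset.prod_const]
    have h2 : 0 ≤ ∏ x ∈ S, a x := Finset.prod_nonneg fun x _ => ha x
    have h3 : (a g + δ) * ∏ x ∈ S, (a x + δ) ≤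
        (a g + δ) * (∏ x ∈ S, a x + δ * (S.card * (B + 1) ^ S.card)) :=
      mul_le_mul_of_nonneg_left ih (by linarith [ha g])
    refine h3.trans ?_
    have h4 : (a g + δ) ≤ B + 1 := by linarith [haB g]
    have h5 : 0 ≤ δ * (S.card * (B + 1) ^ S.card) := by positivity
    have h6 : (a g + δ) * (δ * (S.card * (B + 1) ^ S.card)) ≤
        (B + 1) * (δ * (S.card * (B + 1) ^ S.card)) := mul_le_mul_of_nonneg_right h4 h5
    have h7 : δ * (∏ x ∈ S, a x) ≤ δ * (B + 1) ^ (S.card + 1) := by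
      apply mul_le_mul_of_nonneg_left _ hδ
      refine h1.trans ?_
      apply pow_le_pow_right₀ (by linarith)
      omega
    push_cast
    calc (a g + δ) * (∏ x ∈ S, a x + δ * (S.card * (B + 1) ^ S.card)) =
        a g * ∏ x ∈ S, a x + δ * (∏ x ∈ S, a x) +
          (a g + δ) * (δ * (S.card * (B + 1) ^ S.card)) := by ring
      _ ≤ a g * ∏ x ∈ S, a x + δ * (B + 1) ^ (S.card + 1) +
          (B + 1) * (δ * (S.card * (B + 1) ^ S.card)) := by linarith
      _ = _ := by ring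

/-- the sum of the regularised logarithms of the factors -/
lemma sum_log_le {γ : Type*} [Fintype γ] (u : γ → Fin k → ℂ) (α : Fin k → Fin (m + 1) → ℕ)
    (P' : MvPolynomial (Fin (m + 1)) ℤ) (hP' : P' ≠ 0) {b : ℝ} (hb : b ≠ 0)
    (hprod : ∀ x, ∏ g, tq (u g) α x = (b : ℂ) * tv P' x) {x : ℝ}
    (hx : 2 * Real.log (mM P') < x) :
    ∃ δ > 0, ∑ g, ∫ t in Set.Icc (0 : Fin (m + 1) → ℝ) 1, Real.log (‖tq (u g) α t‖ ^ 2 + δ) <
      2 * Real.log |b| + x := by
  classical
  obtain ⟨δ', hδ', hint⟩ := mM_upper P' hP' x hx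
  set B : ℝ := ∑ g, (∑ j, ‖u g j‖) ^ 2 with hB
  have hB0 : 0 ≤ B := Finset.sum_nonneg fun g _ => sq_nonneg _
  have haB : ∀ g t, ‖tq (u g) α t‖ ^ 2 ≤ B := by
    intro g t
    calc ‖tq (u g) α t‖ ^ 2 ≤ (∑ j, ‖u g j‖) ^ 2 := by
          apply pow_le_pow_left₀ (norm_nonneg _) (tq_bound _ _ _)
      _ ≤ B := Finset.single_le_sum (f := fun g => (∑ j, ‖u g j‖) ^ 2)
          (fun g _ => sq_nonneg _) (Finset.mem_univ g)
  set C : ℝ := Fintype.card γ * (B + 1) ^ (Fintype.card γ) with hC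
  have hC0 : 0 ≤ C := by positivity
  have hb2 : 0 < b ^ 2 := by positivity
  set δ : ℝ := min 1 (δ' * b ^ 2 / (C + 1)) with hδdef
  have hδ : 0 < δ := lt_min one_pos (by positivity)
  have hδ1 : δ ≤ 1 := min_le_left _ _
  have hδC : δ * C ≤ δ' * b ^ 2 := by
    have h1 : δ ≤ δ' * b ^ 2 / (C + 1) := min_le_right _ _
    calc δ * C ≤ δ' * b ^ 2 / (C + 1) * (C + 1) := by
          apply mul_le_mul h1 (by linarith) hC0 (by positivity)
      _ = _ := by field_simp
  refine ⟨δ, hδ, ?_⟩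
  have hcont : ∀ g, Continuous (fun t : Fin (m + 1) → ℝ => Real.log (‖tq (u g) α t‖ ^ 2 + δ)) := by
    intro g
    apply Continuous.log
    · have := tq_cont (u g) α
      fun_prop
    · intro t
      positivity
  have hcontP : Continuous (fun t : Fin (m + 1) → ℝ => Real.log (‖tv P' t‖ ^ 2 + δ')) := by
    apply Continuous.log
    · have := F_continuous_tv P'
      fun_prop
    · intro t
      positivity
  rw [← integral_finsetSum _ (fun g _ => (hcont g).integrableOn_Icc)]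
  have hpt : ∀ t : Fin (m + 1) → ℝ, ∑ g, Real.log (‖tq (u g) α t‖ ^ 2 + δ) ≤
      2 * Real.log |b| + Real.log (‖tv P' t‖ ^ 2 + δ') := by
    intro t
    rw [← Real.log_prod (fun g _ => by positivity)]
    have h1 := prod_add_le (Finset.univ : Finset γ) (a := fun g => ‖tq (u g) α t‖ ^ 2)
      (fun g => sq_nonneg _) (fun g => haB g t) hδ.le hδ1
    rw [Finset.card_univ] at h1
    have h2 : ∏ g, ‖tq (u g) α t‖ ^ 2 = b ^ 2 * ‖tv P' t‖ ^ 2 := by
      rw [Finset.prod_pow, ← norm_prod, hprod, norm_mul, mul_pow, Complex.norm_real,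
        Real.norm_eq_abs, sq_abs]
    rw [h2] at h1
    have h3 : ∏ g, (‖tq (u g) α t‖ ^ 2 + δ) ≤ b ^ 2 * (‖tv P' t‖ ^ 2 + δ') := by
      calc _ ≤ _ := h1
        _ ≤ b ^ 2 * ‖tv P' t‖ ^ 2 + δ' * b ^ 2 := by linarith
        _ = _ := by ring
    have h4 := Real.log_le_log (Finset.prod_pos fun g _ => by positivity) h3
    rw [Real.log_mul hb2.ne' (by positivity)] at h4
    have h5 : Real.log (b ^ 2) = 2 * Real.log |b| := by
      rw [← sq_abs, Real.log_pow]
      norm_num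
    linarith
  have hvol : (volume (Set.Icc (0 : Fin (m + 1) → ℝ) 1)) = 1 := by
    rw [Real.volume_Icc_pi]
    simp
  calc ∫ t in Set.Icc (0 : Fin (m + 1) → ℝ) 1, ∑ g, Real.log (‖tq (u g) α t‖ ^ 2 + δ)
      ≤ ∫ t in Set.Icc (0 : Fin (m + 1) → ℝ) 1,
          (2 * Real.log |b| + Real.log (‖tv P' t‖ ^ 2 + δ')) := by
        apply integral_mono
        · exact (continuous_finsetSum _ fun g _ => hcont g).integrableOn_Icc
        · exact (continuous_const.add hcontP).integrableOn_Icc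
        · exact hpt
    _ = 2 * Real.log |b| + ∫ t in Set.Icc (0 : Fin (m + 1) → ℝ) 1,
          Real.log (‖tv P' t‖ ^ 2 + δ') := by
        rw [integral_add (by
          apply Continuous.integrableOn_Icc
          exact continuous_const) hcontP.integrableOn_Icc, setIntegral_const]
        simp [Measure.real, hvol]
    _ < _ := by linarith

end Pool.Agent.Helper99.MVQ
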