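import Mathlib
import Pool.Agent.Helper99.MVL.Hd
import Pool.Agent.Helper99.TD.Av

/-!
# The averaged discriminant inequality, abstract form
-/

set_option autoImplicit false

open Finset Polynomial MeasureTheory

namespace Pool.Agent.Helper99.MVQ

open Pool.Agent.Helper99.TD Pool.Agent.Helper99.MVL

/-- the averaged discriminant inequality -/
theorem averaged2 {ι γ : Type*} [Fintype ι] [DecidableEq ι] [Nonempty ι] [Fintype γ]
    {D : ℕ} (hDpos : 0 < D) (F : γ → ι → ℝ → ℂ[X]) (hF : ∀ g i τ, (F g i τ).natDegree ≤ D)
    (R : ι → ι → ℤ[X]) (S : ι → ℤ[X]) (hR0 : ∀ i i', i ≠ i' → R i i' ≠ 0) (hS0 : ∀ i, S i ≠ 0)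
    {ρ ρ' : ℝ} (hρ : 0 < ρ) (hρ' : 0 < ρ')
    (hR : ∀ i i', i ≠ i' → ∀ τ, ∏ g, ‖resultant (F g i τ) (F g i' τ) D D‖ =
      ρ * ‖eval (ep τ) ((R i i').map (Int.castRingHom ℂ))‖)
    (hS : ∀ i τ, ∏ g, ‖resultant (F g i τ) (derivative (F g i τ)) D (D - 1)‖ =
      ρ' * ‖eval (ep τ) ((S i).map (Int.castRingHom ℂ))‖)
    (U : γ → ι → ℝ → ℝ) (hUc : ∀ g i, Continuous (U g i))
    (hU : ∀ g i τ, F g i τ ≠ 0 → (F g i τ).logMahlerMeasure ≤ U g i τ) :
    (Fintype.card ι * (Fintype.card ι - 1) : ℝ) * Real.log ρ + Fintype.card ι * Real.log ρ' ≤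
      (Fintype.card γ : ℝ) * ((Fintype.card ι * D : ℝ) * Real.log (Fintype.card ι * D)) +
      (2 * (Fintype.card ι * D) - 1) * ∑ g, ∑ i, ∫ τ in (0:ℝ)..1, U g i τ := by
  classical
  set n : ℝ := (Fintype.card ι * D : ℝ) with hn
  -- lower bounds
  have hlowR : ∀ i i', i ≠ i' → 0 ≤ ∫ τ in (0:ℝ)..1,
      Real.log ‖eval (ep τ) ((R i i').map (Int.castRingHom ℂ))‖ := by
    intro i i' hii'
    have h1 := lmm_int_nonneg (hR0 i i' hii')
    rw [logMahlerMeasure_def, circle_int] at h1
    exact h1
  have hlowS : ∀ i, 0 ≤ ∫ τ in (0:ℝ)..1,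
      Real.log ‖eval (ep τ) ((S i).map (Int.castRingHom ℂ))‖ := by
    intro i
    have h1 := lmm_int_nonneg (hS0 i)
    rw [logMahlerMeasure_def, circle_int] at h1
    exact h1
  set L : ℝ → ℝ := fun τ => ∑ i, ∑ i' ∈ univ.erase i,
      (Real.log ρ + Real.log ‖eval (ep τ) ((R i i').map (Int.castRingHom ℂ))‖) +
      ∑ i, (Real.log ρ' + Real.log ‖eval (ep τ) ((S i).map (Int.castRingHom ℂ))‖) with hL
  have hLint : IntervalIntegrable L volume 0 1 := by
    rw [hL]
    apply IntervalIntegrable.add
    · apply ii_sum
      intro i _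
      apply ii_sum
      intro i' _
      exact intervalIntegrable_const.add (log_int _)
    · apply ii_sum
      intro i _
      exact intervalIntegrable_const.add (log_int _)
  have hlow : (Fintype.card ι * (Fintype.card ι - 1) : ℝ) * Real.log ρ +
      Fintype.card ι * Real.log ρ' ≤ ∫ τ in (0:ℝ)..1, L τ := by
    rw [hL, intervalIntegral.integral_add]
    · rw [intervalIntegral.integral_finsetSum, intervalIntegral.integral_finsetSum]
      · have h1 : ∀ i : ι, (∫ τ in (0:ℝ)..1, ∑ i' ∈ univ.erase i,
            (Real.log ρ + Real.log ‖eval (ep τ) ((R i i').map (Int.castRingHom ℂ))‖)) =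
            ∑ i' ∈ univ.erase i, (Real.log ρ + ∫ τ in (0:ℝ)..1,
              Real.log ‖eval (ep τ) ((R i i').map (Int.castRingHom ℂ))‖) := by
          intro i
          rw [intervalIntegral.integral_finsetSum]
          · refine Finset.sum_congr rfl fun i' _ => ?_
            rw [intervalIntegral.integral_add intervalIntegrable_const (log_int _),
              intervalIntegral.integral_const]
            simp
          · intro i' _
            exact intervalIntegrable_const.add (log_int _)
        have h1' : ∀ i : ι, (∫ τ in (0:ℝ)..1,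
            (Real.log ρ' + Real.log ‖eval (ep τ) ((S i).map (Int.castRingHom ℂ))‖)) =
            Real.log ρ' + ∫ τ in (0:ℝ)..1,
              Real.log ‖eval (ep τ) ((S i).map (Int.castRingHom ℂ))‖ := by
          intro i
          rw [intervalIntegral.integral_add intervalIntegrable_const (log_int _),
              intervalIntegral.integral_const]
          simp
        rw [Finset.sum_congr rfl fun i _ => h1 i, Finset.sum_congr rfl fun i _ => h1' i]
        have h2 : (Fintype.card ι * (Fintype.card ι - 1) : ℝ) * Real.log ρ =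
            ∑ i : ι, ∑ i' ∈ univ.erase i, Real.log ρ := by
          have h1 : ∀ i : ι, ∑ i' ∈ univ.erase i, Real.log ρ =
              ((Fintype.card ι : ℝ) - 1) * Real.log ρ := by
            intro i
            rw [Finset.sum_const, Finset.card_erase_of_mem (Finset.mem_univ i),
              Finset.card_univ, nsmul_eq_mul, Nat.cast_pred (Fintype.card_pos_iff.mpr ⟨i⟩)]
          rw [Finset.sum_congr rfl fun i _ => h1 i, Finset.sum_const, Finset.card_univ,
            nsmul_eq_mul]
          ring
        have h2' : (Fintype.card ι : ℝ) * Real.log ρ' = ∑ i : ι, Real.log ρ' := by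
          rw [Finset.sum_const, Finset.card_univ, nsmul_eq_mul]
        rw [h2, h2']
        apply add_le_add
        · refine Finset.sum_le_sum fun i _ => Finset.sum_le_sum fun i' hi' => ?_
          have := hlowR i i' (Finset.ne_of_mem_erase hi').symm
          linarith
        · refine Finset.sum_le_sum fun i _ => ?_
          have := hlowS i
          linarith
      · intro i _
        exact intervalIntegrable_const.add (log_int _)
      · intro i _
        apply ii_sum
        intro i' _
        exact intervalIntegrable_const.add (log_int _)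
    · apply ii_sum
      intro i _
      apply ii_sum
      intro i' _
      exact intervalIntegrable_const.add (log_int _)
    · apply ii_sum
      intro i _
      exact intervalIntegrable_const.add (log_int _)
  refine hlow.trans ?_
  set G : ℝ → ℝ := fun τ => (Fintype.card γ : ℝ) * (n * Real.log n) +
    (2 * n - 1) * ∑ g, ∑ i, U g i τ with hG
  have hGc : Continuous G := by
    rw [hG]
    apply Continuous.add continuous_const
    apply Continuous.mul continuous_const
    exact continuous_finsetSum _ fun g _ => continuous_finsetSum _ fun i _ => hUc g i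
  have hGint : ∫ τ in (0:ℝ)..1, G τ = (Fintype.card γ : ℝ) * (n * Real.log n) +
      (2 * n - 1) * ∑ g, ∑ i, ∫ τ in (0:ℝ)..1, U g i τ := by
    rw [hG, intervalIntegral.integral_add intervalIntegrable_const, intervalIntegral.integral_const,
      intervalIntegral.integral_const_mul, intervalIntegral.integral_finsetSum]
    · simp only [sub_zero, one_smul]
      congr 2
      refine Finset.sum_congr rfl fun g _ => ?_
      rw [intervalIntegral.integral_finsetSum]
      intro i _
      exact (hUc g i).intervalIntegrable _ _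
    · intro g _
      exact (continuous_finsetSum _ fun i _ => hUc g i).intervalIntegrable _ _
    · apply Continuous.intervalIntegrable
      apply Continuous.mul continuous_const
      exact continuous_finsetSum _ fun g _ => continuous_finsetSum _ fun i _ => hUc g i
  rw [← hGint]
  apply intervalIntegral.integral_mono_ae zero_le_one hLint (hGc.intervalIntegrable _ _)
  have hae : ∀ᵐ τ : ℝ, (∀ i i', i ≠ i' → eval (ep τ) ((R i i').map (Int.castRingHom ℂ)) ≠ 0) ∧
      ∀ i, eval (ep τ) ((S i).map (Int.castRingHom ℂ)) ≠ 0 := by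
    apply Filter.Eventually.and
    · rw [ae_all_iff]
      intro i
      rw [ae_all_iff]
      intro i'
      rw [ae_all_iff]
      intro hii'
      apply ae_eval_ne
      rw [Ne, Polynomial.map_eq_zero_iff (RingHom.injective_int _)]
      exact hR0 i i' hii'
    · rw [ae_all_iff]
      intro i
      apply ae_eval_ne
      rw [Ne, Polynomial.map_eq_zero_iff (RingHom.injective_int _)]
      exact hS0 i
  filter_upwards [hae] with τ hτ
  have hRne : ∀ i i', i ≠ i' → ∀ g, resultant (F g i τ) (F g i' τ) D D ≠ 0 := by
    intro i i' hii' g h0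
    have h1 := hR i i' hii' τ
    rw [Finset.prod_eq_zero (Finset.mem_univ g) (by rw [h0, norm_zero])] at h1
    have h2 := norm_pos_iff.mpr (hτ.1 i i' hii')
    have h3 := mul_pos hρ h2
    linarith
  have hSne : ∀ i g, resultant (F g i τ) (derivative (F g i τ)) D (D - 1) ≠ 0 := by
    intro i g h0
    have h1 := hS i τ
    rw [Finset.prod_eq_zero (Finset.mem_univ g) (by rw [h0, norm_zero])] at h1
    have h2 := norm_pos_iff.mpr (hτ.2 i)
    have h3 := mul_pos hρ' h2
    linarith
  have hLτ : L τ = ∑ g, (∑ i, ∑ i' ∈ univ.erase i,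
      Real.log ‖resultant (F g i τ) (F g i' τ) D D‖ +
      ∑ i, Real.log ‖resultant (F g i τ) (derivative (F g i τ)) D (D - 1)‖) := by
    rw [Finset.sum_add_distrib]
    rw [hL]
    dsimp only
    congr 1
    · rw [Finset.sum_comm]
      refine Finset.sum_congr rfl fun i _ => ?_
      rw [Finset.sum_comm]
      refine Finset.sum_congr rfl fun i' hi' => ?_
      have hii' := (Finset.ne_of_mem_erase hi').symm
      rw [← Real.log_mul hρ.ne' (norm_ne_zero_iff.mpr (hτ.1 i i' hii')), ← hR i i' hii' τ,
        Real.log_prod (fun g _ => norm_ne_zero_iff.mpr (hRne i i' hii' g))]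
    · rw [Finset.sum_comm]
      refine Finset.sum_congr rfl fun i _ => ?_
      rw [← Real.log_mul hρ'.ne' (norm_ne_zero_iff.mpr (hτ.2 i)), ← hS i τ,
        Real.log_prod (fun g _ => norm_ne_zero_iff.mpr (hSne i g))]
  rw [hLτ]
  have hmain : ∀ g ∈ (Finset.univ : Finset γ), (∑ i, ∑ i' ∈ univ.erase i,
      Real.log ‖resultant (F g i τ) (F g i' τ) D D‖ +
      ∑ i, Real.log ‖resultant (F g i τ) (derivative (F g i τ)) D (D - 1)‖) ≤
      n * Real.log n + (2 * n - 1) * ∑ i, U g i τ := by
    intro g _
    have hsep : ∀ i, resultant (F g i τ) (derivative (F g i τ)) D (D - 1) ≠ 0 :=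
      fun i => hSne i g
    have hdegle : ∀ i, (F g i τ).natDegree ≤ D := fun i => hF g i τ
    have hdeg : ∀ i, (F g i τ).natDegree = D := by
      intro i
      by_contra hcon
      have hlt : (F g i τ).natDegree < D := lt_of_le_of_ne (hdegle i) hcon
      rcases Nat.eq_zero_or_pos (D - 1) with h1 | h1
      · -- D = 1
        have hD1 : D = 1 := by omega
        apply hsep i
        have h2 : derivative (F g i τ) = 0 := by
          apply derivative_of_natDegree_zero
          omega
        rw [h2, h1, hD1]
        simp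
      · apply hsep i
        apply resultant_eq_zero_of_lt_lt _ _ _ _ hlt
        have := natDegree_derivative_le (F g i τ)
        omega
    have h1 := family_disc hDpos (fun i => F g i τ) hdeg
      (fun i i' hii' => hRne i i' hii' g) hsep
    refine h1.trans ?_
    have hn1 : 1 ≤ n := by
      rw [hn]
      have h2 : (1:ℝ) ≤ Fintype.card ι := by exact_mod_cast Fintype.card_pos
      have h3 : (1:ℝ) ≤ D := by exact_mod_cast hDpos
      nlinarith
    have h2 : ∑ i, (F g i τ).logMahlerMeasure ≤ ∑ i, U g i τ :=
      Finset.sum_le_sum fun i _ => hU g i τ (by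
        intro h0
        have h5 := hdeg i
        rw [h0, natDegree_zero] at h5
        omega)
    have h3 : (0:ℝ) ≤ 2 * n - 1 := by linarith
    have h4 := mul_le_mul_of_nonneg_left h2 h3
    linarith
  refine (Finset.sum_le_sum hmain).trans (le_of_eq ?_)
  rw [Finset.sum_add_distrib, Finset.sum_const, nsmul_eq_mul, Finset.card_univ, ← Finset.mul_sum]

end Pool.Agent.Helper99.MVQ
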