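import Mathlib
import Pool.Agent.Helper99.MVQ.Ra
import Pool.Agent.Helper99.MVQ.Cf
import Pool.Agent.Helper99.MVQ.Fc
import Pool.Agent.Helper99.MVQ.Lt

/-!
# The inequality for polynomials irreducible over the rational numbers
-/

set_option autoImplicit false

open Finset Polynomial MeasureTheory Filter

namespace Pool.Agent.Helper99.MVQ

open Pool.Agent.Helper99.TD Pool.Agent.Helper99.MVL
open Pool.Agent.H261R2.CM (tv mM spec AsympIndep F_continuous_tv mM_upper one_le_mM spec_ne_zero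
  asympIndep_pow mM_mul)

variable {k m : ℕ}

lemma eval_sp (e : Fin m → ℕ) (z : ℂ) (T : MvPolynomial (Fin m) ℤ) :
    eval z ((sp' e T).map (Int.castRingHom ℂ)) =
      MvPolynomial.eval (fun l => z ^ (e l)) (MvPolynomial.map (Int.castRingHom ℂ) T) := by
  have h : ((evalRingHom z).comp (Polynomial.mapRingHom (Int.castRingHom ℂ))).comp (sp' e) =
      (MvPolynomial.eval (fun l => z ^ (e l))).comp (MvPolynomial.map (Int.castRingHom ℂ)) := by
    apply MvPolynomial.ringHom_ext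
    · intro r
      simp
    · intro l
      simp only [RingHom.comp_apply, MvPolynomial.map_X, MvPolynomial.eval_X, sp'_apply]
      unfold spec
      rw [MvPolynomial.aeval_X]
      simp
  exact congrArg (fun f : MvPolynomial (Fin m) ℤ →+* ℂ => f T) h

section theta

variable {E : Type} [Field E] [CharZero E] [Algebra ℚ E] (ψ : E →+* ℂ)

/-- the evaluation at a point of the torus -/
noncomputable def Te (z : Fin m → ℂ) : MvPolynomial (Fin m) E →+* ℂ :=
  (MvPolynomial.eval z).comp (MvPolynomial.map ψ)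

omit [CharZero E] in
lemma Te_act_C (z : Fin m → ℂ) (σ : E ≃ₐ[ℚ] E) (r : E) :
    Te ψ z (act σ (MvPolynomial.C r)) = ψ (σ r) := by
  unfold Te act
  simp

omit [CharZero E] in
lemma Te_act_y (z : Fin m → ℂ) (σ : E ≃ₐ[ℚ] E) (α : Fin k → Fin (m + 1) → ℕ)
    (i0 : Fin (m + 1)) (q : Fin k → E) (j : Fin k) :
    Te ψ z (act σ (MvPolynomial.C (q j) * mo E α i0 j)) =
      ψ (σ (q j)) * ∏ l, z l ^ (α j (i0.succAbove l)) := by
  rw [map_mul, map_mul, Te_act_C]
  congr 1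
  unfold Te act
  rw [mo_map, RingHom.comp_apply, mo_map]
  unfold mo
  simp

end theta

lemma prod_tq {E : Type} [Field E] [CharZero E] [Algebra ℚ E] [Fintype (E ≃ₐ[ℚ] E)]
    (ψ : E →+* ℂ) (α : Fin k → Fin (m + 1) → ℕ) (q : Fin k → E)
    (P : MvPolynomial (Fin (m + 1)) ℤ) (b : ℚ) {h : ℕ}
    (hN : ∏ σ : E ≃ₐ[ℚ] E, act σ (PV (fun _ => 1) α q) =
      MvPolynomial.C (algebraMap ℚ E b) * (MvPolynomial.map (Int.castRingHom E) P) ^ h)
    (x : Fin (m + 1) → ℝ) :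
    ∏ σ : E ≃ₐ[ℚ] E, tq (fun j => ψ (σ (q j))) α x = (((b : ℚ) : ℝ) : ℂ) * tv (P ^ h) x := by
  have h1 : ∀ σ : E ≃ₐ[ℚ] E, MvPolynomial.eval (exv x) (MvPolynomial.map ψ
      (act σ (PV (fun _ => 1) α q))) = tq (fun j => ψ (σ (q j))) α x := by
    intro σ
    unfold act
    rw [PV_map, PV_map]
    unfold PV tq
    rw [map_sum]
    refine Finset.sum_congr rfl fun j _ => ?_
    simp
  have h2 := congrArg (fun F => MvPolynomial.eval (exv x) (MvPolynomial.map ψ F)) hN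
  rw [map_prod, map_prod, Finset.prod_congr rfl fun σ _ => h1 σ] at h2
  rw [h2, map_mul, map_mul, MvPolynomial.map_C, MvPolynomial.eval_C]
  congr 1
  · have h3 : ψ.comp (algebraMap ℚ E) = (algebraMap ℝ ℂ).comp (algebraMap ℚ ℝ) :=
      RingHom.ext_rat _ _
    exact congrArg (fun f : ℚ →+* ℂ => f b) h3
  · have h4 : ψ.comp (Int.castRingHom E) = Int.castRingHom ℂ := RingHom.ext_int _ _
    have h5 : tv (P ^ h) x = (MvPolynomial.eval (exv x)
        (MvPolynomial.map (Int.castRingHom ℂ) P)) ^ h := by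
      unfold tv
      rw [map_pow, map_pow]
      rfl
    rw [h5, map_pow, MvPolynomial.map_map, h4, map_pow]

/-- the inequality, regularised -/
theorem main_q_reg {p : ℕ} (hp : p.Prime) {E : Type} [Field E] [CharZero E] [Algebra ℚ E]
    [FiniteDimensional ℚ E] [IsGalois ℚ E] (ψ : E →+* ℂ) {ζ : E} (hζ : IsPrimitiveRoot ζ p)
    (hcard : (Fintype.card (E ≃ₐ[ℚ] E) : ℝ) = (p:ℝ) - 1)
    (hζG : ∏ σ : E ≃ₐ[ℚ] E, ‖ψ (σ ζ) - 1‖ = p)
    {α : Fin k → Fin (m + 1) → ℕ} (hα : Function.Injective α) (hfull : Full α)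
    (q : Fin k → E) (hq : ∀ j, q j ≠ 0) (i0 : Fin (m + 1)) {D : ℕ}
    (hDpos : 0 < D) (hD : ∀ j, α j i0 ≤ D) (jt : Fin k) (hjt : α jt i0 = D)
    (hirr : Irreducible (PV (fun _ => 1) α q)) (P : MvPolynomial (Fin (m + 1)) ℤ) (hP0 : P ≠ 0)
    {b : ℚ} (hb : b ≠ 0) {h : ℕ}
    (hN : ∏ σ : E ≃ₐ[ℚ] E, act σ (PV (fun _ => 1) α q) =
      MvPolynomial.C (algebraMap ℚ E b) * (MvPolynomial.map (Int.castRingHom E) P) ^ h)
    {x : ℝ} (hx : 2 * Real.log (mM (P ^ h)) < x) :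
    ((p:ℝ) ^ (m + 1) * ((p:ℝ) ^ (m + 1) - 1)) * (D * Real.log p) ≤
      ((p:ℝ) - 1) * (((p:ℝ) ^ (m + 1) * D) * Real.log ((p:ℝ) ^ (m + 1) * D)) +
      ((p:ℝ) ^ (m + 1) * D) * ((p:ℝ) ^ (m + 1) * x) := by
  classical
  have : NeZero p := ⟨hp.ne_zero⟩
  have hk : 0 < k := Fin.pos jt
  have hPh0 : P ^ h ≠ 0 := pow_ne_zero _ hP0
  have hM1 : 0 ≤ Real.log (mM (P ^ h)) := Real.log_nonneg (one_le_mM _ hPh0)
  have hx0 : 0 ≤ x := by linarith
  have hbR : ((b : ℚ) : ℝ) ≠ 0 := by exact_mod_cast hb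
  set B : ℝ := |((b : ℚ) : ℝ)| with hB
  have hB0 : 0 < B := abs_pos.mpr hbR
  obtain ⟨δ, hδ, hδx⟩ := sum_log_le (fun (σ : E ≃ₐ[ℚ] E) j => ψ (σ (q j))) α (P ^ h) hPh0 hbR
    (fun x => prod_tq ψ α q P b hN x) hx
  obtain ⟨w, hw1, hw2⟩ := exists_twists hk hfull hp
  -- roots of unity
  set μ : (E ≃ₐ[ℚ] E) → ℂ := fun σ => ψ (σ ζ) with hμ
  have hμp : ∀ σ, IsPrimitiveRoot (μ σ) p := fun σ =>
    (hζ.map_of_injective σ.injective).map_of_injective ψ.injective
  have hμn : ∀ σ, ‖μ σ‖ = 1 := fun σ => (hμp σ).norm'_eq_one hp.ne_zero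
  choose cc κ hκ hκ2 using fun (σ : E ≃ₐ[ℚ] E) (A : Fin (m + 1) → Fin p) =>
    twist_real (hw1 A) (hμn σ)
  have hζp : ζ ^ p = 1 := hζ.pow_eq_one
  -- the integral norms
  set yE : Fin k → MvPolynomial (Fin m) E := fun j => MvPolynomial.C (q j) * mo E α i0 j with hyE
  choose TW hTW using fun A A' : Fin (m + 1) → Fin p => exists_int hα hk q hq P hb hN hp.pos hζp
    (covW (fun j => α j i0) D (w A) (w A')) i0
  choose TD hTD using fun A : Fin (m + 1) → Fin p => exists_int hα hk q hq P hb hN hp.pos hζp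
    (covD (fun j => α j i0) hDpos (w A)) i0
  have hTW' : ∀ A A', ∏ σ : E ≃ₐ[ℚ] E, act σ (WX (fun j => α j i0) D (w A) (w A')
      (MvPolynomial.C ζ) yE) = MvPolynomial.C (algebraMap ℚ E b ^ (2 * D)) *
        MvPolynomial.map (Int.castRingHom E) (TW A A') := hTW
  have hTD' : ∀ A, ∏ σ : E ≃ₐ[ℚ] E, act σ (DX (fun j => α j i0) D (w A)
      (MvPolynomial.C ζ) yE) = MvPolynomial.C (algebraMap ℚ E b ^ (2 * D - 1)) *
        MvPolynomial.map (Int.castRingHom E) (TD A) := hTD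
  have hactinj : ∀ σ : E ≃ₐ[ℚ] E, Function.Injective (act (τ := Fin m) σ) := fun σ =>
    MvPolynomial.map_injective _ (by exact σ.injective)
  have hTW0 : ∀ A A', A ≠ A' → TW A A' ≠ 0 := by
    intro A A' hAA' h0
    have h1 := hTW' A A'
    rw [h0, map_zero, mul_zero] at h1
    obtain ⟨σ, _, hσ⟩ := Finset.prod_eq_zero_iff.mp h1
    rw [map_eq_zero_iff _ (hactinj σ)] at hσ
    have h2 := (twists_ne' hp ψ hζ hα q hq i0 hDpos hD jt hjt hirr (hw1 A) (hw2 A A' hAA')).1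
    apply h2
    rw [WX_eq _ hD, hσ, mul_zero]
  have hTD0 : ∀ A, TD A ≠ 0 := by
    intro A h0
    obtain ⟨A', hA'⟩ : ∃ A' : Fin (m + 1) → Fin p, A ≠ A' := by
      have : Nontrivial (Fin p) := Fin.nontrivial_iff_two_le.mpr hp.two_le
      obtain ⟨b, hb⟩ := exists_ne A
      exact ⟨b, hb.symm⟩
    have h1 := hTD' A
    rw [h0, map_zero, mul_zero] at h1
    obtain ⟨σ, _, hσ⟩ := Finset.prod_eq_zero_iff.mp h1
    rw [map_eq_zero_iff _ (hactinj σ)] at hσ
    exact (twists_ne' hp ψ hζ hα q hq i0 hDpos hD jt hjt hirr (hw1 A) (hw2 A A' hA')).2 hσ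
  set Ex : ℕ → Fin m → ℕ := fun n l => n ^ (l : ℕ) with hEx
  have hEind : AsympIndep atTop Ex := asympIndep_pow m
  -- good exponents
  have hev : ∀ᶠ n in atTop, (∀ A, ∑ σ : E ≃ₐ[ℚ] E,
      ∫ τ in (0:ℝ)..1, ∫ t in (0:ℝ)..1,
        Real.log (‖tq (fun j => ψ (σ (q j))) α (cc σ A + pt2 i0 (Ex n) t τ)‖ ^ 2 + δ) <
          2 * Real.log B + x) ∧
      (∀ A A', A ≠ A' → sp' (Ex n) (TW A A') ≠ 0) ∧ (∀ A, sp' (Ex n) (TD A) ≠ 0) := by
    apply Filter.Eventually.and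
    · rw [Filter.eventually_all]
      intro A
      have hlim : Tendsto (fun n => ∑ σ : E ≃ₐ[ℚ] E, ∫ τ in (0:ℝ)..1, ∫ t in (0:ℝ)..1,
          Real.log (‖tq (fun j => ψ (σ (q j))) α (cc σ A + pt2 i0 (Ex n) t τ)‖ ^ 2 + δ)) atTop
          (nhds (∑ σ : E ≃ₐ[ℚ] E, ∫ t in Set.Icc (0 : Fin (m + 1) → ℝ) 1,
            Real.log (‖tq (fun j => ψ (σ (q j))) α t‖ ^ 2 + δ))) :=
        tendsto_finsetSum _ fun σ _ => equi2_tq atTop Ex hEind (cc σ A) i0 _ α hδ
      exact hlim.eventually_lt_const hδx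
    apply Filter.Eventually.and
    · rw [Filter.eventually_all]
      intro A
      rw [Filter.eventually_all]
      intro A'
      rw [Filter.eventually_all]
      intro hAA'
      simp only [sp'_apply]
      exact spec_ne_zero atTop Ex hEind _ (hTW0 A A' hAA')
    · rw [Filter.eventually_all]
      intro A
      simp only [sp'_apply]
      exact spec_ne_zero atTop Ex hEind _ (hTD0 A)
  obtain ⟨n, hn1, hn2, hn3⟩ := hev.exists
  set e := Ex n with he
  have hne : Nonempty (Fin (m + 1) → Fin p) := ⟨fun _ => ⟨0, hp.pos⟩⟩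
  -- the family
  set z : ℝ → Fin m → ℂ := fun τ l => ep τ ^ (e l) with hz
  set yC : (E ≃ₐ[ℚ] E) → ℝ → Fin k → ℂ := fun σ τ j => ψ (σ (q j)) *
    ∏ l, (ep τ ^ (e l)) ^ (α j (i0.succAbove l)) with hyC
  set F : (E ≃ₐ[ℚ] E) → (Fin (m + 1) → Fin p) → ℝ → ℂ[X] := fun σ A τ =>
    TP (fun _ => 1) (fun j => α j i0) (yt (μ σ) (w A) (yC σ τ)) with hF
  have hTey : ∀ σ τ, (fun j => Te ψ (z τ) (act σ (yE j))) = yC σ τ := by
    intro σ τ
    funext j
    exact Te_act_y ψ (z τ) σ α i0 q j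
  have hTeζ : ∀ σ τ, Te ψ (z τ) (act σ (MvPolynomial.C ζ)) = μ σ := fun σ τ =>
    Te_act_C ψ (z τ) σ ζ
  have hTeyt : ∀ σ A τ, (fun j => ((Te ψ (z τ)).comp (act σ)) (yt (MvPolynomial.C ζ) (w A) yE j)) =
      yt (μ σ) (w A) (yC σ τ) := by
    intro σ A τ
    funext j
    unfold yt
    rw [map_mul, map_pow, RingHom.comp_apply, RingHom.comp_apply, hTeζ, ← hTey]
  have hresW : ∀ σ A A' τ, resultant (F σ A τ) (F σ A' τ) D D = (μ σ - 1) ^ D *
      Te ψ (z τ) (act σ (WX (fun j => α j i0) D (w A) (w A') (MvPolynomial.C ζ) yE)) := by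
    intro σ A A' τ
    have h1 := congrArg ((Te ψ (z τ)).comp (act σ))
      (WX_eq (fun j => α j i0) hD (w A) (w A') (MvPolynomial.C ζ) yE)
    rw [RS_map, hTeyt, hTeyt, map_mul, map_pow, map_sub, map_one, RingHom.comp_apply, hTeζ] at h1
    exact h1
  have hresD : ∀ σ A τ, resultant (F σ A τ) (derivative (F σ A τ)) D (D - 1) =
      Te ψ (z τ) (act σ (DX (fun j => α j i0) D (w A) (MvPolynomial.C ζ) yE)) := by
    intro σ A τ
    have h1 := RD_map (fun _ => 1) (fun j => α j i0) D (yt (MvPolynomial.C ζ) (w A) yE)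
      ((Te ψ (z τ)).comp (act σ))
    rw [hTeyt] at h1
    exact h1.symm
  have hTeT : ∀ (N : ℕ) (T : MvPolynomial (Fin m) ℤ) (τ : ℝ),
      ‖Te ψ (z τ) (MvPolynomial.C (algebraMap ℚ E b ^ N) * MvPolynomial.map (Int.castRingHom E) T)‖ =
        B ^ N * ‖eval (ep τ) ((sp' e T).map (Int.castRingHom ℂ))‖ := by
    intro N T τ
    rw [map_mul, norm_mul, eval_sp]
    unfold Te
    rw [RingHom.comp_apply, RingHom.comp_apply, MvPolynomial.map_C, MvPolynomial.eval_C,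
      MvPolynomial.map_map, map_pow, norm_pow]
    congr 1
    · congr 1
      have h3 : ψ.comp (algebraMap ℚ E) = (algebraMap ℝ ℂ).comp (algebraMap ℚ ℝ) :=
        RingHom.ext_rat _ _
      have h4 : ψ (algebraMap ℚ E b) = (((b : ℚ) : ℝ) : ℂ) :=
        congrArg (fun f : ℚ →+* ℂ => f b) h3
      rw [h4, Complex.norm_real, Real.norm_eq_abs]
    · have h4 : ψ.comp (Int.castRingHom E) = Int.castRingHom ℂ := RingHom.ext_int _ _
      rw [h4]
  set U : (E ≃ₐ[ℚ] E) → (Fin (m + 1) → Fin p) → ℝ → ℝ := fun σ A τ =>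
    ∫ t in (0:ℝ)..1, (1 / 2 : ℝ) *
      Real.log (‖tq (fun j => ψ (σ (q j))) α (cc σ A + pt2 i0 e t τ)‖ ^ 2 + δ) with hU
  have hUc : ∀ σ A, Continuous (U σ A) := fun σ A => reg_int_cont' _ α (cc σ A) i0 e hδ
  have hppos : (0:ℝ) < p := by exact_mod_cast hp.pos
  have hmain := averaged2 hDpos F (fun σ A τ => TP_natDegree_le _ _ _ hD)
    (fun A A' => sp' e (TW A A')) (fun A => sp' e (TD A)) (fun A A' hAA' => hn2 A A' hAA')
    (fun A => hn3 A) (ρ := (p:ℝ) ^ D * B ^ (2 * D)) (ρ' := B ^ (2 * D - 1))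
    (by positivity) (by positivity)
    (by
      intro A A' _ τ
      have h1 : ∀ σ, ‖resultant (F σ A τ) (F σ A' τ) D D‖ = ‖μ σ - 1‖ ^ D *
          ‖Te ψ (z τ) (act σ (WX (fun j => α j i0) D (w A) (w A') (MvPolynomial.C ζ) yE))‖ := by
        intro σ
        rw [hresW, norm_mul, norm_pow]
      rw [Finset.prod_congr rfl fun σ _ => h1 σ, Finset.prod_mul_distrib, Finset.prod_pow, hζG,
        ← norm_prod, ← map_prod, hTW', hTeT, mul_assoc])
    (by
      intro A τ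
      rw [Finset.prod_congr rfl fun σ _ => congrArg norm (hresD σ A τ), ← norm_prod, ← map_prod,
        hTD', hTeT])
    U hUc (by
      intro σ A τ hF0
      have hfc1 : Continuous (fun t : ℝ => (1 / 2 : ℝ) *
          Real.log (‖tq (fun j => ψ (σ (q j))) α (cc σ A + pt2 i0 e t τ)‖ ^ 2 + δ)) :=
        reg_cont' _ α (cc σ A) i0 e hδ continuous_id continuous_const
      exact lmm_le hF0 (φ := fun t => (1 / 2 : ℝ) *
          Real.log (‖tq (fun j => ψ (σ (q j))) α (cc σ A + pt2 i0 e t τ)‖ ^ 2 + δ)) hfc1 (by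
        intro t ht
        rw [hF] at ht ⊢
        dsimp only at ht ⊢
        rw [hyC] at ht ⊢
        rw [eval_tq α _ i0 e (hκ2 σ A)] at ht ⊢
        rw [norm_mul, hκ, one_mul]
        have hpos : 0 < ‖tq (fun j => ψ (σ (q j))) α (cc σ A + pt2 i0 e t τ)‖ :=
          norm_pos_iff.mpr (right_ne_zero_of_mul ht)
        have h1 : Real.log ‖tq (fun j => ψ (σ (q j))) α (cc σ A + pt2 i0 e t τ)‖ =
            (1 / 2 : ℝ) * Real.log (‖tq (fun j => ψ (σ (q j))) α (cc σ A + pt2 i0 e t τ)‖ ^ 2) := by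
          rw [Real.log_pow]
          push_cast
          ring
        rw [h1]
        apply mul_le_mul_of_nonneg_left _ (by norm_num)
        apply Real.log_le_log (by positivity)
        linarith))
  have hcardA : (Fintype.card (Fin (m + 1) → Fin p) : ℝ) = (p:ℝ) ^ (m + 1) := by
    rw [Fintype.card_fun, Fintype.card_fin, Fintype.card_fin]
    push_cast
    rfl
  rw [hcardA, hcard] at hmain
  set N : ℝ := (p:ℝ) ^ (m + 1) with hNdef
  have hN1 : 1 ≤ N := one_le_pow₀ (by exact_mod_cast hp.one_le)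
  have hD1 : (1:ℝ) ≤ D := by exact_mod_cast hDpos
  have hND : 1 ≤ N * D := one_le_mul_of_one_le_of_one_le hN1 hD1
  have hsum : ∑ σ : E ≃ₐ[ℚ] E, ∑ A, ∫ τ in (0:ℝ)..1, U σ A τ ≤ N * (Real.log B + x / 2) := by
    rw [Finset.sum_comm]
    calc ∑ A, ∑ σ : E ≃ₐ[ℚ] E, ∫ τ in (0:ℝ)..1, U σ A τ
        ≤ ∑ A : Fin (m + 1) → Fin p, (Real.log B + x / 2) := by
          refine Finset.sum_le_sum fun A _ => ?_
          have h1 := hn1 A
          have h2 : ∑ σ : E ≃ₐ[ℚ] E, ∫ τ in (0:ℝ)..1, U σ A τ = (1 / 2 : ℝ) *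
              ∑ σ : E ≃ₐ[ℚ] E, ∫ τ in (0:ℝ)..1, ∫ t in (0:ℝ)..1,
                Real.log (‖tq (fun j => ψ (σ (q j))) α (cc σ A + pt2 i0 e t τ)‖ ^ 2 + δ) := by
            rw [Finset.mul_sum]
            refine Finset.sum_congr rfl fun σ _ => ?_
            rw [← intervalIntegral.integral_const_mul]
            refine intervalIntegral.integral_congr fun τ _ => ?_
            rw [hU]
            dsimp only
            rw [intervalIntegral.integral_const_mul]
          rw [h2]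
          linarith
      _ = _ := by
          rw [Finset.sum_const, Finset.card_univ, nsmul_eq_mul, hcardA]
  have hlr : Real.log ((p:ℝ) ^ D * B ^ (2 * D)) = D * Real.log p + 2 * D * Real.log B := by
    rw [Real.log_mul (by positivity) (by positivity), Real.log_pow, Real.log_pow]
    push_cast
    ring
  have hls : Real.log (B ^ (2 * D - 1)) = (2 * D - 1) * Real.log B := by
    rw [Real.log_pow, Nat.cast_sub (by omega)]
    push_cast
    ring
  rw [hlr, hls] at hmain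
  have h1 : (2 * (N * D) - 1) * ∑ σ : E ≃ₐ[ℚ] E, ∑ A, ∫ τ in (0:ℝ)..1, U σ A τ ≤
      (2 * (N * D) - 1) * (N * (Real.log B + x / 2)) := by
    apply mul_le_mul_of_nonneg_left hsum
    linarith
  have h2 : (2 * (N * D) - 1) * (N * (x / 2)) ≤ (N * D) * (N * x) := by
    have h3 : 0 ≤ N * (x / 2) := by positivity
    nlinarith
  nlinarith [hmain, h1, h2]

end Pool.Agent.Helper99.MVQ
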