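import Mathlib
import Pool.Agent.Helper99.MVQ.Mn

/-!
# The inequality for polynomials irreducible over the rational numbers, final form
-/

set_option autoImplicit false

open Finset Polynomial MeasureTheory Filter

namespace Pool.Agent.Helper99.MVQ

open Pool.Agent.Helper99.TD Pool.Agent.Helper99.MVL
open Pool.Agent.H261R2.CM (tv mM one_le_mM mM_mul)

lemma mM_one' {s : ℕ} : mM (1 : MvPolynomial (Fin s) ℤ) = 1 := by
  unfold mM
  have h : ∀ t : Fin s → ℝ, Real.log ‖tv (1 : MvPolynomial (Fin s) ℤ) t‖ = 0 := by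
    intro t
    unfold tv
    simp
  simp [h]

lemma mM_pow' {s : ℕ} (P : MvPolynomial (Fin s) ℤ) (hP : P ≠ 0) (h : ℕ) :
    mM (P ^ h) = mM P ^ h := by
  induction h with
  | zero => rw [pow_zero, pow_zero, mM_one']
  | succ h ih => rw [pow_succ, pow_succ, mM_mul _ _ (pow_ne_zero _ hP) hP, ih]

/-- the cyclotomic extension -/
lemma cyclo_gen {p : ℕ} (hp : p.Prime) (E : Type) [Field E] [CharZero E] [Algebra ℚ E]
    [FiniteDimensional ℚ E] [IsGalois ℚ E] [IsCyclotomicExtension {p} ℚ E] :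
    ∃ (ψ : E →+* ℂ) (ζ : E), IsPrimitiveRoot ζ p ∧
      (Fintype.card (E ≃ₐ[ℚ] E) : ℝ) = (p:ℝ) - 1 ∧
      ∏ σ : E ≃ₐ[ℚ] E, ‖ψ (σ ζ) - 1‖ = p := by
  classical
  have hne : NeZero p := ⟨hp.ne_zero⟩
  let ψ : E →ₐ[ℚ] ℂ := IsAlgClosed.lift
  have hζ := IsCyclotomicExtension.zeta_spec p ℚ E
  set ζ := IsCyclotomicExtension.zeta p ℚ E with hζdef
  have hcard : Fintype.card (E ≃ₐ[ℚ] E) = p - 1 := by
    rw [← Nat.card_eq_fintype_card, IsGalois.card_aut_eq_finrank,
      IsCyclotomicExtension.finrank E (cyclotomic.irreducible_rat hp.pos),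
      Nat.totient_prime hp]
  refine ⟨(ψ : E →+* ℂ), ζ, hζ, ?_, ?_⟩
  · rw [hcard, Nat.cast_pred hp.pos]
  · set f : (E ≃ₐ[ℚ] E) → ℂ := fun σ => ψ (σ ζ) with hf
    have hfinj : Function.Injective f := by
      intro σ σ' h
      have h1 : σ ζ = σ' ζ := (ψ : E →+* ℂ).injective h
      have h2 : (σ : E →ₐ[ℚ] E) = (σ' : E →ₐ[ℚ] E) := by
        apply (hζ.powerBasis ℚ).algHom_ext
        rw [hζ.powerBasis_gen ℚ]
        exact h1
      ext y
      exact congrArg (fun g : E →ₐ[ℚ] E => g y) h2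
    have hfim : Finset.univ.image f = primitiveRoots p ℂ := by
      apply Finset.eq_of_subset_of_card_le
      · intro μ hμ
        obtain ⟨σ, _, rfl⟩ := Finset.mem_image.mp hμ
        rw [mem_primitiveRoots hp.pos]
        exact (hζ.map_of_injective σ.injective).map_of_injective (ψ : E →+* ℂ).injective
      · rw [Finset.card_image_of_injective _ hfinj, Finset.card_univ, hcard,
          (Complex.isPrimitiveRoot_exp p hp.ne_zero).card_primitiveRoots, Nat.totient_prime hp]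
    have h3 := norm_prod_sub_one hp
    rw [← hfim, Finset.prod_image (fun a _ b _ h => hfinj h), norm_prod] at h3
    exact h3

/-- the cyclotomic field -/
lemma cyclo_data {p : ℕ} (hp : p.Prime) :
    ∃ (E : Type) (_ : Field E) (_ : CharZero E) (_ : Algebra ℚ E) (_ : FiniteDimensional ℚ E)
      (_ : IsGalois ℚ E) (ψ : E →+* ℂ) (ζ : E), IsPrimitiveRoot ζ p ∧
      (Fintype.card (E ≃ₐ[ℚ] E) : ℝ) = (p:ℝ) - 1 ∧
      ∏ σ : E ≃ₐ[ℚ] E, ‖ψ (σ ζ) - 1‖ = p := by
  have hne : NeZero p := ⟨hp.ne_zero⟩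
  let hA : Algebra ℚ (CyclotomicField p ℚ) := CyclotomicField.algebra p ℚ
  have hcyc : IsCyclotomicExtension {p} ℚ (CyclotomicField p ℚ) :=
    CyclotomicField.isCyclotomicExtension p ℚ
  have hgal : IsGalois ℚ (CyclotomicField p ℚ) := IsCyclotomicExtension.isGalois {p} ℚ _
  have hfin : FiniteDimensional ℚ (CyclotomicField p ℚ) :=
    IsCyclotomicExtension.finiteDimensional {p} ℚ _
  have hc : CharZero (CyclotomicField p ℚ) := inferInstance
  obtain ⟨ψ, ζ, h1, h2, h3⟩ := cyclo_gen hp (CyclotomicField p ℚ)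
  exact ⟨CyclotomicField p ℚ, inferInstance, hc, hA, hfin, hgal, ψ, ζ, h1, h2, h3⟩

/-- the inequality -/
theorem ineq_rat {s : ℕ} (P : MvPolynomial (Fin s) ℤ) (hP : FullDim P) (i : Fin s) {D : ℝ}
    (hD : (P.degreeOf i : ℝ) ≤ D) {p : ℕ} (hp : p.Prime)
    (hirr : Irreducible (MvPolynomial.map (Int.castRingHom ℚ) P)) :
    (1 - 1 / (p:ℝ) ^ s) * (Real.log p / (p - 1)) ≤
      2 * Real.log (mM P) + Real.log ((p:ℝ) ^ s * D) / (p:ℝ) ^ s := by
  obtain ⟨m, rfl⟩ : ∃ m, s = m + 1 := ⟨s - 1, by have := i.pos; omega⟩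
  obtain ⟨E, hF, hC, hA, hfd, hgal, ψ, ζ, hζ, hcard, hζG⟩ := cyclo_data hp
  obtain ⟨k, α, q, b, h, D', hα, hfull, hq, hirrQ, hb, hh, hN, hD'pos, hD'le, hle, ⟨jt, hjt⟩⟩ :=
    factor_data P hP i hirr E
  have hP0 : P ≠ 0 := by
    rintro rfl
    rw [map_zero] at hirr
    exact hirr.ne_zero rfl
  have hp1 : (0:ℝ) < (p:ℝ) - 1 := by
    have : (1:ℝ) < p := by exact_mod_cast hp.one_lt
    linarith
  set y := Real.log (mM P) with hy
  have hy0 : 0 ≤ y := Real.log_nonneg (one_le_mM P hP0)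
  have hhp : (h:ℝ) ≤ (p:ℝ) - 1 := by
    rw [← hcard]
    exact_mod_cast hh
  apply le_of_forall_pos_le_add
  intro η hη
  have hMP : 0 < mM P := lt_of_lt_of_le one_pos (one_le_mM P hP0)
  have hlogh : Real.log (mM (P ^ h)) = h * y := by
    rw [mM_pow' P hP0, Real.log_pow]
  have hx : 2 * Real.log (mM (P ^ h)) < ((p:ℝ) - 1) * (2 * y + η) := by
    rw [hlogh]
    have h1 : (h:ℝ) * y ≤ ((p:ℝ) - 1) * y := mul_le_mul_of_nonneg_right hhp hy0
    have h2 : 0 < ((p:ℝ) - 1) * η := mul_pos hp1 hη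
    linarith
  have h1 := main_q_reg hp ψ hζ hcard hζG hα hfull q hq i hD'pos hle jt hjt hirrQ P hP0 hb hN hx
  set N : ℝ := (p:ℝ) ^ (m + 1) with hNdef
  have hN0 : 0 < N := pow_pos (by exact_mod_cast hp.pos) _
  have hD0 : (0:ℝ) < D' := by exact_mod_cast hD'pos
  have hDD : (D':ℝ) ≤ D := le_trans (by exact_mod_cast hD'le) hD
  have h2 : (1 - 1 / N) * (Real.log p / (p - 1)) =
      ((N * (N - 1)) * (D' * Real.log p)) / (N * N * D' * (p - 1)) := by
    field_simp
  have h3 : 2 * y + Real.log (N * D') / N + η =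
      (((p:ℝ) - 1) * ((N * D') * Real.log (N * D')) +
      (N * D') * (N * (((p:ℝ) - 1) * (2 * y + η)))) / (N * N * D' * (p - 1)) := by
    field_simp
    ring
  have h4 : (1 - 1 / N) * (Real.log p / (p - 1)) ≤ 2 * y + Real.log (N * D') / N + η := by
    rw [h2, h3]
    apply div_le_div_of_nonneg_right h1
    positivity
  have h5 : Real.log (N * D') / N ≤ Real.log (N * D) / N := by
    apply div_le_div_of_nonneg_right _ hN0.le
    apply Real.log_le_log (by positivity)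
    exact mul_le_mul_of_nonneg_left hDD hN0.le
  linarith

end Pool.Agent.Helper99.MVQ
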