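import Mathlib
import Pool.Agent.Helper99.MVQ.Fi

/-!
# The explicit bound of Lehmer type
-/

set_option autoImplicit false

open Finset

namespace Pool.Agent.Helper99.MVQ

open Pool.Agent.Helper99.TD Pool.Agent.Helper99.MVL
open Pool.Agent.H261R2.CM (tv mM)

/-- the bound of Lehmer type -/
theorem lehmer_rat {s : ℕ} (hs : 2 ≤ s) (P : MvPolynomial (Fin s) ℤ) (hP : FullDim P)
    (i : Fin s) {D : ℝ} (hD16 : 16 ≤ D) (hD : (P.degreeOf i : ℝ) ≤ D)
    (hirr : Irreducible (MvPolynomial.map (Int.castRingHom ℚ) P)) :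
    Real.log (Real.log D) / (1024 * (s - 1)) *
      (Real.log (Real.log D) / Real.log D) ^ ((1:ℝ) / (s - 1)) ≤ Real.log (mM P) := by
  have hsr : (2:ℝ) ≤ s := by exact_mod_cast hs
  set L := Real.log D with hLdef
  have hL1 : Real.exp 1 < L := by
    have h1 : (2.7182818286:ℝ) < Real.log 16 := by
      have : Real.log 16 = 4 * Real.log 2 := by
        rw [show (16:ℝ) = 2 ^ 4 by norm_num, Real.log_pow]
        norm_num
      rw [this]
      have := Real.log_two_gt_d9
      linarith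
    have h2 := Real.exp_one_lt_d9
    have h3 : Real.log 16 ≤ L := Real.log_le_log (by norm_num) hD16
    linarith
  have hLpos : 0 < L := (Real.exp_pos 1).trans hL1
  set l := Real.log L with hldef
  have hl1 : 1 < l := by
    rw [hldef, Real.lt_log_iff_exp_lt hLpos]
    exact hL1
  have hl : 0 < l := by linarith
  have hlL : l ≤ L := by
    have := Real.log_le_sub_one_of_pos hLpos
    linarith
  have hLe : L = Real.exp l := (Real.exp_log hLpos).symm
  set Y : ℝ := 16 * s * L / l with hY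
  have hY1 : 16 * s ≤ Y := by
    rw [hY, le_div_iff₀ hl]
    nlinarith
  have hYpos : 0 < Y := by nlinarith
  set y : ℝ := Y ^ ((1:ℝ) / (s - 1)) with hy
  have hs1 : ((s - 1 : ℕ) : ℝ) = (s:ℝ) - 1 := by
    rw [Nat.cast_sub (by omega)]
    simp
  have hs1' : (s:ℝ) - 1 ≠ 0 := by linarith
  have hypow : y ^ (s - 1) = Y := by
    rw [hy, ← Real.rpow_natCast, ← Real.rpow_mul hYpos.le, hs1, one_div,
      inv_mul_cancel₀ hs1', Real.rpow_one]
  have hy1 : 1 ≤ y := by
    apply Real.one_le_rpow (by nlinarith)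
    apply div_nonneg zero_le_one
    linarith
  have hy0 : 0 < y := by linarith
  -- the prime
  obtain ⟨p, hp, hp1, hp2⟩ := Nat.exists_prime_lt_and_le_two_mul ⌈y⌉₊ (Nat.ceil_pos.mpr hy0).ne'
  have hp1' : y < p := lt_of_le_of_lt (Nat.le_ceil y) (by exact_mod_cast hp1)
  have hp2' : (p:ℝ) ≤ 4 * y := by
    have h1 : (p:ℝ) ≤ 2 * ⌈y⌉₊ := by exact_mod_cast hp2
    have h2 := (Nat.ceil_lt_add_one hy0.le).le
    linarith
  have hDpos : 0 < D := by linarith
  have hineq := ineq_rat P hP i hD hp hirr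
  have hDe : D = Real.exp L := (Real.exp_log hDpos).symm
  rw [hDe] at hineq
  have h1 := numeric_choice hs hl hlL hLe hy1 hypow (log_le_half hl) hp hp1' hp2' hineq
  refine le_trans ?_ h1
  -- compare the two forms
  have hy2 : y = (16 * s) ^ ((1:ℝ) / (s - 1)) * (L / l) ^ ((1:ℝ) / (s - 1)) := by
    rw [hy, hY, mul_div_assoc, Real.mul_rpow (by positivity) (by positivity)]
  have h32 : (16 * (s:ℝ)) ^ ((1:ℝ) / (s - 1)) ≤ 32 := by
    have h2 : 16 * (s:ℝ) ≤ 32 ^ (s - 1) := by
      obtain ⟨n, rfl⟩ : ∃ n, s = n + 2 := ⟨s - 2, by omega⟩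
      clear * -
      have : n + 2 - 1 = n + 1 := by omega
      rw [this]
      have h5 : ∀ n : ℕ, 16 * ((n + 2 : ℕ) : ℝ) ≤ 32 ^ (n + 1) := by
        intro n
        induction n with
        | zero => norm_num
        | succ n ih =>
          rw [pow_succ]
          push_cast at ih ⊢
          nlinarith [Nat.cast_nonneg (α := ℝ) n]
      exact h5 n
    calc (16 * (s:ℝ)) ^ ((1:ℝ) / (s - 1)) ≤ ((32:ℝ) ^ (s - 1)) ^ ((1:ℝ) / (s - 1)) := by
          apply Real.rpow_le_rpow (by positivity) h2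
          apply div_nonneg zero_le_one
          linarith
      _ = 32 := by
          rw [← Real.rpow_natCast, ← Real.rpow_mul (by norm_num), hs1, one_div,
            mul_inv_cancel₀ hs1', Real.rpow_one]
  have hrinv : (l / L) ^ ((1:ℝ) / (s - 1)) = ((L / l) ^ ((1:ℝ) / (s - 1)))⁻¹ := by
    rw [← Real.inv_rpow (by positivity), inv_div]
  have hr0 : 0 < (L / l) ^ ((1:ℝ) / (s - 1)) := Real.rpow_pos_of_pos (by positivity) _
  rw [hrinv, hy2]
  rw [← div_eq_mul_inv, div_div]
  apply div_le_div_of_nonneg_left hl.le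
  · have : (0:ℝ) < s - 1 := by linarith
    positivity
  · have h6 : (0:ℝ) < s - 1 := by linarith
    calc 32 * ((s:ℝ) - 1) * ((16 * s) ^ ((1:ℝ) / (s - 1)) * (L / l) ^ ((1:ℝ) / (s - 1))) ≤
        32 * ((s:ℝ) - 1) * (32 * (L / l) ^ ((1:ℝ) / (s - 1))) := by gcongr
      _ = 1024 * ((s:ℝ) - 1) * (L / l) ^ ((1:ℝ) / (s - 1)) := by ring

end Pool.Agent.Helper99.MVQ
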